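import Pool.Agent.W_MP_654ec6.B.Manifold

/-!
# Task B11: the Riemannian metric of a patchwork

`bil m` is the continuous bilinear form with matrix `m`. The tangent space `TangentSpace 𝓘(ℝ,E4) p`
is `E4`, identified through the chart `chartOf p`; the inner product at `p` is
`bil (g (idx p) (chartOf p p))`. Smoothness (`contMDiff`): in the trivialisation at `x₀` the
section is `p ↦ bil (g (idx x₀) (chartOf x₀ p))` near `x₀` (by `transition_isoAt`, polarised:
`g_j(θ y)(Dθ v, Dθ w) = g_i(y)(v, w)`), which is smooth.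
`chartMet_eq`: `mfderiv (extChartAt x).symm y` at a point `y` of the chart target is the
derivative of `chartOf q ∘ (chartOf x).symm`, `q = (chartOf x).symm y`; again `transition_isoAt`.
The set `{v | bil m v v < 1}` is bounded because `qf m v ≥ c² ‖v‖²` (`qf_norm`).
-/

open scoped Manifold ContDiff Topology
open Filter Bundle

namespace Pool.Agent.W_MP_654ec6

/-- The continuous bilinear form with matrix `m`. -/
noncomputable def bil (m : Matrix (Fin 4) (Fin 4) ℝ) : E4 →L[ℝ] E4 →L[ℝ] ℝ :=
  ∑ i, ∑ j, m i j • ((EuclideanSpace.proj i : E4 →L[ℝ] ℝ).smulRight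
    (EuclideanSpace.proj j : E4 →L[ℝ] ℝ))

theorem bil_apply (m : Matrix (Fin 4) (Fin 4) ℝ) (v w : E4) :
    bil m v w = ∑ i, ∑ j, m i j * v i * w j := by
  simp [bil, mul_assoc]

theorem bil_self (m : Matrix (Fin 4) (Fin 4) ℝ) (v : E4) : bil m v v = qf m v := by
  rw [bil_apply]; rfl

theorem bil_bv (m : Matrix (Fin 4) (Fin 4) ℝ) (i j : Fin 4) : bil m (bv i) (bv j) = m i j := by
  rw [bil_apply]
  simp [bv]

theorem bil_comm {m : Matrix (Fin 4) (Fin 4) ℝ} (hs : ∀ i j, m i j = m j i) (v w : E4) :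
    bil m v w = bil m w v := by
  rw [bil_apply, bil_apply, Finset.sum_comm]
  refine Finset.sum_congr rfl fun j _ => Finset.sum_congr rfl fun i _ => ?_
  rw [hs i j]; ring

theorem bil_polar {m m' : Matrix (Fin 4) (Fin 4) ℝ} (hs : ∀ i j, m i j = m j i)
    (hs' : ∀ i j, m' i j = m' j i) {L : E4 →L[ℝ] E4} (h : ∀ v, qf m' (L v) = qf m v) (v w : E4) :
    bil m' (L v) (L w) = bil m v w := by
  have h1 := h (v + w)
  have h2 := h v
  have h3 := h w
  simp only [← bil_self, map_add, add_apply] at h1 h2 h3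
  rw [bil_comm hs' (L w) (L v), bil_comm hs w v] at h1
  linarith

namespace Patchwork

variable (P : Patchwork)

/-- The matrix of the metric at `p` in the chart at `p`. -/
noncomputable def mat (p : P.Pt) : Matrix (Fin 4) (Fin 4) ℝ := P.g (P.idx p) (P.chartOf p p)

set_option backward.isDefEq.respectTransparency false in
/-- The derivative of the inverse of a chart, read in the chart at the image point. -/
theorem mfderiv_symm (x : P.Pt) {y : E4} (hy : y ∈ (P.chartOf x).target) (v : E4) :
    mfderiv 𝓘(ℝ, E4) 𝓘(ℝ, E4) (extChartAt 𝓘(ℝ, E4) x).symm y v =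
      fderiv ℝ (fun z => P.chartOf ((P.chartOf x).symm y) ((P.chartOf x).symm z)) y v := by
  have h : MDifferentiableAt 𝓘(ℝ, E4) 𝓘(ℝ, E4) (extChartAt 𝓘(ℝ, E4) x).symm y := by
    have := mdifferentiableWithinAt_extChartAt_symm (I := 𝓘(ℝ, E4)) (x := x) (z := y) (by
      simp only [mfld_simps]
      exact hy)
    simpa [mdifferentiableWithinAt_univ] using this
  rw [mfderiv, if_pos h]
  simp only [writtenInExtChartAt, extChartAt, mfld_simps, fderivWithin_univ]
  rfl

theorem mat_fderiv (x : P.Pt) {y : E4} (hy : y ∈ (P.chartOf x).target) (v w : E4) :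
    bil (P.mat ((P.chartOf x).symm y))
      (fderiv ℝ (fun z => P.chartOf ((P.chartOf x).symm y) ((P.chartOf x).symm z)) y v)
      (fderiv ℝ (fun z => P.chartOf ((P.chartOf x).symm y) ((P.chartOf x).symm z)) y w) =
      bil (P.g (P.idx x) y) v w := by
  have h := P.transition_isoAt (P.chartOf_isChart x) (P.chartOf_isChart ((P.chartOf x).symm y)) hy
    (P.mem_chartOf _)
  refine bil_polar ?_ ?_ h.2.self_of_nhds v w
  · intro i j
    exact (P.good _).symm _ ((P.chartOf_isChart x).1 hy) i j
  · intro i j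
    exact (P.good _).symm _ ((P.chartOf_isChart _).1
      ((P.chartOf _).map_source (P.mem_chartOf _))) i j

theorem contDiffAt_smul_c {F : Type*} [NormedAddCommGroup F] [NormedSpace ℝ F] {f : E4 → ℝ}
    {y : E4} (h : ContDiffAt ℝ ∞ f y) (c : F) : ContDiffAt ℝ ∞ (fun z => f z • c) y :=
  h.smul contDiffAt_const

theorem contDiffAt_bil (i : P.ι) {y : E4} (hy : y ∈ P.V i) :
    ContDiffAt ℝ ∞ (fun z => bil (P.g i z)) y := by
  have hV := (P.isOpen_V i).mem_nhds hy
  unfold bil
  refine ContDiffAt.sum fun a _ => ContDiffAt.sum fun b _ => ?_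
  have h1 : ContDiffAt ℝ ∞ (fun z => P.g i z a b) y := ((P.good i).smooth a b).contDiffAt hV
  exact contDiffAt_smul_c h1 _

set_option backward.isDefEq.respectTransparency false in
theorem contMDiffAt_chart_bil (x : P.Pt) :
    ContMDiffAt 𝓘(ℝ, E4) 𝓘(ℝ, E4 →L[ℝ] E4 →L[ℝ] ℝ) ∞
      (fun b : P.Pt => bil (P.g (P.idx x) (P.chartOf x b))) x := by
  have h1 : ContMDiffAt 𝓘(ℝ, E4) 𝓘(ℝ, E4 →L[ℝ] E4 →L[ℝ] ℝ) ∞
      (fun z => bil (P.g (P.idx x) z)) (P.chartOf x x) :=
    (P.contDiffAt_bil (P.idx x) ((P.chartOf_isChart x).1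
      ((P.chartOf x).map_source (P.mem_chartOf x)))).contMDiffAt
  have h2 : ContMDiffAt 𝓘(ℝ, E4) 𝓘(ℝ, E4) ∞ (P.chartOf x) x := contMDiffAt_extChartAt
  exact ContMDiffAt.comp (I' := 𝓘(ℝ, E4)) (g := fun z => bil (P.g (P.idx x) z)) x h1 h2

set_option backward.isDefEq.respectTransparency false in
theorem exists_riem : ∃ G : ContMDiffRiemannianMetric 𝓘(ℝ, E4) ∞ E4
    (fun p : P.Pt => TangentSpace 𝓘(ℝ, E4) p), ∀ p : P.Pt, G.inner p = bil (P.mat p) := by
  have hmem : ∀ p : P.Pt, P.chartOf p p ∈ P.V (P.idx p) := fun p =>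
    (P.chartOf_isChart p).1 ((P.chartOf p).map_source (P.mem_chartOf p))
  refine ⟨{ inner := fun p => bil (P.mat p)
            symm := ?_
            pos := ?_
            isVonNBounded := ?_
            contMDiff := ?_ }, fun p => rfl⟩
  · intro p v w
    exact bil_comm (fun i j => (P.good _).symm _ (hmem p) i j) v w
  · intro p v hv
    have := (P.good _).pos _ (hmem p) v hv
    rwa [← bil_self] at this
  · intro p
    obtain ⟨c, C, hc, hC, h⟩ := qf_norm (P.good (P.idx p)) (hmem p)
    change Bornology.IsVonNBounded ℝ {v : E4 | bil (P.mat p) v v < 1}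
    refine (NormedSpace.isVonNBounded_ball ℝ E4 (1 / c)).subset ?_
    intro v hv
    have hv' : qf (P.mat p) v < 1 := by rw [← bil_self]; exact hv
    have h2 : Real.sqrt (qf (P.mat p) v) < 1 := by
      rw [Real.sqrt_lt' one_pos]; simpa using hv'
    have h3 := (h v).1
    rw [Metric.mem_ball, dist_zero_right, lt_div_iff₀ hc]
    calc ‖v‖ * c = c * ‖v‖ := mul_comm _ _
      _ ≤ Real.sqrt (qf (P.mat p) v) := h3
      _ < 1 := h2
  · intro x
    rw [contMDiffAt_section]
    refine (P.contMDiffAt_chart_bil x).congr_of_eventuallyEq ?_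
    filter_upwards [(P.chartOf x).open_source.mem_nhds (P.mem_chartOf x)] with b hb
    refine ContinuousLinearMap.ext fun v => ContinuousLinearMap.ext fun w => ?_
    rw [hom_trivializationAt_apply, inCoordinates_apply_eq₂ hb hb
      (by simp)]
    have hy : P.chartOf x b ∈ (P.chartOf x).target := (P.chartOf x).map_source hb
    have hs : ∀ u : E4, (trivializationAt E4 (TangentSpace 𝓘(ℝ, E4)) x).symm b u =
        fderiv ℝ (fun z => P.chartOf b ((P.chartOf x).symm z)) (P.chartOf x b) u := by
      intro u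
      have h1 := congrArg (fun L => L u)
        (TangentBundle.symmL_trivializationAt (I := 𝓘(ℝ, E4)) (𝕜 := ℝ) hb)
      have h2 := P.mfderiv_symm x hy u
      rw [(P.chartOf x).left_inv hb] at h2
      rw [← h2]
      simp only [modelWithCornersSelf_coe, Set.range_id, mfderivWithin_univ] at h1
      exact (Trivialization.symmL_apply (R := ℝ)
        (trivializationAt E4 (TangentSpace 𝓘(ℝ, E4)) x) hb u).symm.trans h1
    rw [hs, hs]
    have h3 := P.mat_fderiv x hy v w
    rw [(P.chartOf x).left_inv hb] at h3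
    rw [← h3]
    simp
    rfl

/-- The Riemannian metric. -/
noncomputable def riem : ContMDiffRiemannianMetric 𝓘(ℝ, E4) ∞ E4
    (fun p : P.Pt => TangentSpace 𝓘(ℝ, E4) p) := Classical.choose P.exists_riem

theorem riem_inner (p : P.Pt) : P.riem.inner p = bil (P.mat p) :=
  Classical.choose_spec P.exists_riem p

set_option backward.isDefEq.respectTransparency false in
theorem chartMet_eq (x : P.Pt) {y : E4} (hy : y ∈ (P.chartOf x).target) :
    chartMet P.Pt P.riem x y = P.g (P.idx x) y := by
  ext i j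
  simp only [chartMet, Matrix.of_apply]
  have := P.mat_fderiv x hy (bv i) (bv j)
  rw [bil_bv] at this
  rw [← this, riem_inner, mfderiv_symm P x hy, mfderiv_symm P x hy]
  rfl

end Patchwork

end Pool.Agent.W_MP_654ec6
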