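import Pool.Agent.W_MP_654ec6.B.LipIff
import Pool.Agent.W_MP_654ec6.B.RMetric

/-!
# Task B12: the distance of a patchwork is the Riemannian distance

`dist_le`: let `γ : [0,1] → Pt` be `C¹` (for `riemannianEDist`) with finite length; for a
`1`-Lipschitz `f` (for `dist`), `|f (γ 1) - f (γ 0)| ≤ length γ`: the function
`t ↦ edist (γ 0) (γ t)` is infinitesimally bounded by the speed: near `t₀`, in the chart `i` at
`γ t₀ = ψ i a`, `dist (γ s) (γ t₀) ≤ (1 + ε) √qf (g i a) (x(s) - x(t₀))` with `x = chart ∘ γ` of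
class `C¹`. So `dist (γ s) (γ s') ≤ ∫_s^{s'} (‖γ'‖ + ε)` for `s, s'` near `t₀`, and one
concludes by compactness of `[0,1]` and the triangle inequality.
`le_dist`: the function `h q = riemannianEDist p q` is finite (`P.conn`: segments in patches are
`C¹` paths) and infinitesimally `1`-Lipschitz: for `x, y` near `a ∈ V i` the segment from `x` to
`y` has length at most `(1 + ε) √qf (g i a) (x - y)` (`qf_cont`). So `(h q).toReal` is `1`-Lipschitz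
for `dist` (`lip_of_exists`, `lip_le`).
The norm on the tangent space at `p` is `‖v‖ = √(bil (P.mat p) v v)` (`riem_inner`); in the chart
at `x`, the length element of a path `ψ i (x(t))` is `√qf (g i (x t)) (x' t)`.
-/

open scoped Manifold ContDiff Topology ENNReal
open Filter Bundle

namespace Pool.Agent.W_MP_654ec6

namespace Patchwork

variable (P : Patchwork)

noncomputable instance instRiemannianBundle :
    RiemannianBundle (fun p : P.Pt => TangentSpace 𝓘(ℝ, E4) p) := ⟨P.riem.toRiemannianMetric⟩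

/-- the transition from `ψ i` to the chosen chart at `ψ i a` -/
theorem rdist_iso {i : P.ι} {a : E4} (ha : a ∈ P.V i) :
    IsoAt (P.g i) (P.g (P.idx (P.ψ i a))) (fun y => P.chartOf (P.ψ i a) (P.ψ i y)) a := by
  obtain ⟨r, e, hr, hrV, het, hes, hsrc, hea⟩ := P.exists_chart ha
  have hmem : a ∈ Metric.ball a r := Metric.mem_ball_self hr
  have he : P.IsChartAt i e := ⟨het ▸ hrV, fun y hy => hes (het ▸ hy)⟩
  have h := P.transition_isoAt he (P.chartOf_isChart (P.ψ i a)) (x := a) (by rw [het]; exact hmem)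
    (by rw [hes hmem]; exact P.mem_chartOf _)
  refine isoAt_congr h EventuallyEq.rfl ?_ EventuallyEq.rfl
  filter_upwards [Metric.ball_mem_nhds a hr] with y hy
  rw [hes hy]

theorem rdist_norm (p : P.Pt) (v : TangentSpace 𝓘(ℝ, E4) p) :
    ‖v‖ = Real.sqrt (qf (P.mat p) v) := by
  rw [norm_eq_sqrt_real_inner]
  congr 1
  have h1 : inner ℝ v v = P.riem.inner p v v := rfl
  rw [h1, P.riem_inner p]
  exact bil_self _ _

theorem rdist_contMDiffOn (i : P.ι) :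
    ContMDiffOn 𝓘(ℝ, E4) 𝓘(ℝ, E4) ∞ (P.ψ i) (P.V i) := by
  intro a ha
  obtain ⟨r, e, hr, hrV, het, hes, hsrc, hea⟩ := P.exists_chart ha
  have hmem : a ∈ Metric.ball a r := Metric.mem_ball_self hr
  have he : P.IsChartAt i e := ⟨het ▸ hrV, fun y hy => hes (het ▸ hy)⟩
  have he' : e ∈ IsManifold.maximalAtlas 𝓘(ℝ, E4) ∞ P.Pt :=
    IsManifold.subset_maximalAtlas ⟨i, he⟩
  have h1 : ContMDiffOn 𝓘(ℝ, E4) 𝓘(ℝ, E4) ∞ e.symm e.target := contMDiffOn_symm_of_mem_maximalAtlas he'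
  have h2 : ContMDiffAt 𝓘(ℝ, E4) 𝓘(ℝ, E4) ∞ e.symm a :=
    (h1 a (by rw [het]; exact hmem)).contMDiffAt (by rw [het]; exact Metric.ball_mem_nhds a hr)
  have h3 : ContMDiffAt 𝓘(ℝ, E4) 𝓘(ℝ, E4) ∞ (P.ψ i) a := by
    refine h2.congr_of_eventuallyEq ?_
    filter_upwards [Metric.ball_mem_nhds a hr] with y hy
    rw [hes hy]
  exact h3.contMDiffWithinAt

theorem rdist_contMDiffAt {i : P.ι} {a : E4} (ha : a ∈ P.V i) :
    ContMDiffAt 𝓘(ℝ, E4) 𝓘(ℝ, E4) ∞ (P.ψ i) a :=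
  (P.rdist_contMDiffOn i a ha).contMDiffAt ((P.isOpen_V i).mem_nhds ha)

theorem rdist_mdifferentiableAt {i : P.ι} {a : E4} (ha : a ∈ P.V i) :
    MDifferentiableAt 𝓘(ℝ, E4) 𝓘(ℝ, E4) (P.ψ i) a :=
  (P.rdist_contMDiffAt ha).mdifferentiableAt (by simp)

theorem rdist_mfderiv_eq {i : P.ι} {a : E4} (ha : a ∈ P.V i) (v : E4) :
    mfderiv 𝓘(ℝ, E4) 𝓘(ℝ, E4) (P.ψ i) a v =
      fderiv ℝ (fun y => P.chartOf (P.ψ i a) (P.ψ i y)) a v := by
  have e1 := (P.rdist_mdifferentiableAt ha).mfderiv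
  have e2 : writtenInExtChartAt 𝓘(ℝ, E4) 𝓘(ℝ, E4) a (P.ψ i) =
      fun y => P.chartOf (P.ψ i a) (P.ψ i y) := by
    funext y
    simp only [writtenInExtChartAt, extChartAt, mfld_simps]
    rfl
  have e3 : fderivWithin ℝ (writtenInExtChartAt 𝓘(ℝ, E4) 𝓘(ℝ, E4) a (P.ψ i))
      (Set.range 𝓘(ℝ, E4)) (extChartAt 𝓘(ℝ, E4) a a) =
      fderiv ℝ (fun y => P.chartOf (P.ψ i a) (P.ψ i y)) a := by
    rw [e2, modelWithCornersSelf_coe, Set.range_id, fderivWithin_univ]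
    rfl
  exact congrArg (fun L : E4 →L[ℝ] E4 => L v) (e1.trans e3)

theorem rdist_mfderiv {i : P.ι} {a : E4} (ha : a ∈ P.V i) (v : E4) :
    ‖mfderiv 𝓘(ℝ, E4) 𝓘(ℝ, E4) (P.ψ i) a v‖ = Real.sqrt (qf (P.g i a) v) := by
  rw [rdist_norm]
  congr 1
  obtain ⟨h1, h2⟩ := P.rdist_iso ha
  have h3 := h2.self_of_nhds v
  rw [P.rdist_mfderiv_eq ha v]
  exact h3

/-- The length of (the image of) a `C¹` path in a patch. -/
theorem pathELength_patch {i : P.ι} {x : ℝ → E4} (hx : ContDiffOn ℝ 1 x (Set.Icc 0 1))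
    (hV : ∀ t ∈ Set.Icc (0 : ℝ) 1, x t ∈ P.V i) :
    Manifold.pathELength 𝓘(ℝ, E4) (fun t => P.ψ i (x t)) 0 1 =
      ∫⁻ t in Set.Icc (0 : ℝ) 1, ENNReal.ofReal (Real.sqrt (qf (P.g i (x t)) (derivWithin x
        (Set.Icc 0 1) t))) := by
  rw [Manifold.pathELength_eq_lintegral_mfderivWithin_Icc]
  refine MeasureTheory.setLIntegral_congr_fun measurableSet_Icc (fun t ht => ?_)
  have hmd : MDifferentiableWithinAt 𝓘(ℝ, ℝ) 𝓘(ℝ, E4) x (Set.Icc 0 1) t :=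
    (hx.differentiableOn (by simp) t ht).mdifferentiableWithinAt
  have hu : UniqueMDiffWithinAt 𝓘(ℝ, ℝ) (Set.Icc (0 : ℝ) 1) t :=
    (uniqueDiffOn_Icc zero_lt_one t ht).uniqueMDiffWithinAt
  have h1 := mfderiv_comp_mfderivWithin t (P.rdist_mdifferentiableAt (hV t ht)) hmd hu
  have h2 : mfderivWithin 𝓘(ℝ, ℝ) 𝓘(ℝ, E4) (fun t => P.ψ i (x t)) (Set.Icc 0 1) t 1 =
      mfderiv 𝓘(ℝ, E4) 𝓘(ℝ, E4) (P.ψ i) (x t) (derivWithin x (Set.Icc 0 1) t) := by
    have h3 : mfderivWithin 𝓘(ℝ, ℝ) 𝓘(ℝ, E4) x (Set.Icc 0 1) t 1 =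
        derivWithin x (Set.Icc 0 1) t := by
      rw [mfderivWithin_eq_fderivWithin]
      exact fderivWithin_derivWithin
    have h4 := congrArg (fun L => L 1) h1
    refine h4.trans ?_
    exact congrArg (fun v => mfderiv 𝓘(ℝ, E4) 𝓘(ℝ, E4) (P.ψ i) (x t) v) h3
  refine (ofReal_norm _).symm.trans (congrArg ENNReal.ofReal ?_)
  exact (congrArg norm h2).trans (P.rdist_mfderiv (hV t ht) (derivWithin x (Set.Icc 0 1) t))

theorem rdist_qf_continuousOn (i : P.ι) (v : E4) :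
    ContinuousOn (fun c => Real.sqrt (qf (P.g i c) v)) (P.V i) := by
  refine Real.continuous_sqrt.comp_continuousOn ?_
  unfold qf
  refine continuousOn_finsetSum _ fun j _ => continuousOn_finsetSum _ fun k _ => ?_
  exact (((P.good i).smooth j k).continuousOn.mul continuousOn_const).mul continuousOn_const

theorem rdist_seg {i : P.ι} {a b : E4} {L : ℝ}
    (hV : ∀ t ∈ Set.Icc (0 : ℝ) 1, a + t • (b - a) ∈ P.V i)
    (hl : ∀ t ∈ Set.Icc (0 : ℝ) 1, Real.sqrt (qf (P.g i (a + t • (b - a))) (b - a)) ≤ L) :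
    Manifold.riemannianEDist 𝓘(ℝ, E4) (P.ψ i a) (P.ψ i b) ≤ ENNReal.ofReal L := by
  have hx : ContDiff ℝ 1 (fun t : ℝ => a + t • (b - a)) := by fun_prop
  have hxm : ContMDiffOn 𝓘(ℝ, ℝ) 𝓘(ℝ, E4) 1 (fun t : ℝ => a + t • (b - a)) (Set.Icc 0 1) :=
    hx.contMDiff.contMDiffOn
  have hγ : ContMDiffOn 𝓘(ℝ, ℝ) 𝓘(ℝ, E4) 1 (fun t : ℝ => P.ψ i (a + t • (b - a)))
      (Set.Icc 0 1) :=
    ((P.rdist_contMDiffOn i).of_le (by simp)).comp hxm hV
  refine (Manifold.riemannianEDist_le_pathELength hγ (by simp) (by simp) zero_le_one).trans ?_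
  rw [P.pathELength_patch hx.contDiffOn hV]
  have h1 : ∀ t ∈ Set.Icc (0 : ℝ) 1, derivWithin (fun t : ℝ => a + t • (b - a)) (Set.Icc 0 1) t =
      b - a := by
    intro t ht
    have h2 : HasDerivAt (fun t : ℝ => a + t • (b - a)) ((1 : ℝ) • (b - a)) t :=
      ((hasDerivAt_id t).smul_const (b - a)).const_add a
    rw [one_smul] at h2
    exact h2.hasDerivWithinAt.derivWithin (uniqueDiffOn_Icc zero_lt_one t ht)
  calc ∫⁻ t in Set.Icc (0 : ℝ) 1, ENNReal.ofReal (Real.sqrt (qf (P.g i (a + t • (b - a)))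
        (derivWithin (fun t : ℝ => a + t • (b - a)) (Set.Icc 0 1) t)))
      ≤ ∫⁻ _t in Set.Icc (0 : ℝ) 1, ENNReal.ofReal L := by
        refine MeasureTheory.setLIntegral_mono' measurableSet_Icc fun t ht => ?_
        rw [h1 t ht]
        exact ENNReal.ofReal_le_ofReal (hl t ht)
    _ = ENNReal.ofReal L := by simp

theorem rdist_ne_top (p q : P.Pt) : Manifold.riemannianEDist 𝓘(ℝ, E4) p q ≠ ⊤ := by
  induction P.conn p q with
  | refl => rw [Manifold.riemannianEDist_self]; simp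
  | @tail q q' _ h ih =>
    obtain ⟨i, a, b, hV, rfl, rfl⟩ := h
    have hV' : ∀ t ∈ Set.Icc (0 : ℝ) 1, a + t • (b - a) ∈ P.V i := by
      intro t ht
      apply hV
      rw [segment_eq_image']
      exact ⟨t, ht, rfl⟩
    have hc : ContinuousOn (fun t : ℝ => Real.sqrt (qf (P.g i (a + t • (b - a))) (b - a)))
        (Set.Icc 0 1) :=
      (P.rdist_qf_continuousOn i (b - a)).comp (by fun_prop) hV'
    obtain ⟨L, hL⟩ := isCompact_Icc.exists_bound_of_continuousOn hc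
    have h1 := P.rdist_seg hV' (L := L) fun t ht => (le_abs_self _).trans (hL t ht)
    have h2 := (Manifold.riemannianEDist_triangle (I := 𝓘(ℝ, E4)) (x := p) (y := P.ψ i a)
      (z := P.ψ i b)).trans (add_le_add le_rfl h1)
    exact ne_top_of_le_ne_top (ENNReal.add_ne_top.2 ⟨ih, ENNReal.ofReal_ne_top⟩) h2

theorem rdist_local {i : P.ι} {a : E4} (ha : a ∈ P.V i) {ε : ℝ} (hε : 0 < ε) :
    ∀ᶠ q in 𝓝 (a, a), Manifold.riemannianEDist 𝓘(ℝ, E4) (P.ψ i q.1) (P.ψ i q.2) ≤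
      ENNReal.ofReal ((1 + ε) * Real.sqrt (qf (P.g i a) (q.1 - q.2))) := by
  have h1 := (qf_cont (P.isOpen_V i) (P.good i) ha hε).and ((P.isOpen_V i).mem_nhds ha)
  obtain ⟨r, hr, hball⟩ := Metric.eventually_nhds_iff_ball.1 h1
  have h2 : ∀ᶠ q : E4 × E4 in 𝓝 (a, a), q.1 ∈ Metric.ball a r ∧ q.2 ∈ Metric.ball a r := by
    rw [nhds_prod_eq]
    filter_upwards [prod_mem_prod (Metric.ball_mem_nhds a hr) (Metric.ball_mem_nhds a hr)] with q hq
    exact ⟨hq.1, hq.2⟩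
  filter_upwards [h2] with q hq
  have h3 : ∀ t ∈ Set.Icc (0 : ℝ) 1, q.1 + t • (q.2 - q.1) ∈ Metric.ball a r := by
    intro t ht
    refine (convex_ball a r).segment_subset hq.1 hq.2 ?_
    rw [segment_eq_image']
    exact ⟨t, ht, rfl⟩
  have h4 : Real.sqrt (qf (P.g i a) (q.1 - q.2)) = Real.sqrt (qf (P.g i a) (q.2 - q.1)) := by
    have h5 := sqrt_qf_smul (P.g i a) (-1) (q.2 - q.1)
    rw [neg_one_smul, neg_sub] at h5
    rw [h5]
    simp
  rw [h4]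
  exact P.rdist_seg (fun t ht => (hball _ (h3 t ht)).2) fun t ht => ((hball _ (h3 t ht)).1 _).1

theorem rdist_toReal {A B D : ℝ≥0∞} (hA : A ≠ ⊤) (hB : B ≠ ⊤) (hD : D ≠ ⊤) (h1 : A ≤ B + D)
    (h2 : B ≤ A + D) : |A.toReal - B.toReal| ≤ D.toReal := by
  have h3 := ENNReal.toReal_mono (ENNReal.add_ne_top.2 ⟨hB, hD⟩) h1
  have h4 := ENNReal.toReal_mono (ENNReal.add_ne_top.2 ⟨hA, hD⟩) h2
  rw [ENNReal.toReal_add hB hD] at h3
  rw [ENNReal.toReal_add hA hD] at h4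
  rw [abs_le]
  constructor <;> linarith

theorem riemannianEDist_le_dist (p q : P.Pt) :
    Manifold.riemannianEDist 𝓘(ℝ, E4) p q ≤ edist p q := by
  have hL : P.Lip 1 (fun q => (Manifold.riemannianEDist 𝓘(ℝ, E4) p q).toReal) := by
    intro i a ha ε hε
    filter_upwards [P.rdist_local ha hε] with z hz
    have h1 := Manifold.riemannianEDist_triangle (I := 𝓘(ℝ, E4)) (x := p) (y := P.ψ i z.2)
      (z := P.ψ i z.1)
    have h2 := Manifold.riemannianEDist_triangle (I := 𝓘(ℝ, E4)) (x := p) (y := P.ψ i z.1)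
      (z := P.ψ i z.2)
    rw [Manifold.riemannianEDist_comm (x := P.ψ i z.2)] at h1
    have h3 := rdist_toReal (P.rdist_ne_top p (P.ψ i z.1)) (P.rdist_ne_top p (P.ψ i z.2))
      (P.rdist_ne_top (P.ψ i z.1) (P.ψ i z.2)) h1 h2
    refine h3.trans ?_
    have h4 := ENNReal.toReal_mono ENNReal.ofReal_ne_top hz
    rwa [ENNReal.toReal_ofReal (by positivity)] at h4
  have h1 := P.lip_le zero_le_one hL p q
  simp only [Manifold.riemannianEDist_self, ENNReal.toReal_zero, zero_sub, abs_neg, one_mul,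
    ENNReal.abs_toReal] at h1
  rw [edist_dist, ← ENNReal.ofReal_toReal (P.rdist_ne_top p q)]
  exact ENNReal.ofReal_le_ofReal h1

theorem rdist_speed_congr {γ δ : ℝ → P.Pt} {t : ℝ} (h : γ =ᶠ[𝓝 t] δ) :
    ‖mfderiv 𝓘(ℝ, ℝ) 𝓘(ℝ, E4) γ t 1‖ = ‖mfderiv 𝓘(ℝ, ℝ) 𝓘(ℝ, E4) δ t 1‖ := by
  have e1 : (mfderiv 𝓘(ℝ, ℝ) 𝓘(ℝ, E4) γ t : ℝ →L[ℝ] E4) = mfderiv 𝓘(ℝ, ℝ) 𝓘(ℝ, E4) δ t :=
    h.mfderiv_eq
  have key : ∀ (p q : P.Pt) (v w : E4), p = q → v = w →
      Real.sqrt (qf (P.mat p) v) = Real.sqrt (qf (P.mat q) w) := by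
    rintro p q v w rfl rfl
    rfl
  exact (P.rdist_norm _ _).trans ((key _ _ _ _ h.self_of_nhds
    (congrArg (fun L : ℝ →L[ℝ] E4 => L 1) e1)).trans (P.rdist_norm _ _).symm)

theorem rdist_speed {i : P.ι} {x : ℝ → E4} {t : ℝ} (hx : DifferentiableAt ℝ x t)
    (hV : x t ∈ P.V i) :
    ‖mfderiv 𝓘(ℝ, ℝ) 𝓘(ℝ, E4) (fun t => P.ψ i (x t)) t 1‖ =
      Real.sqrt (qf (P.g i (x t)) (deriv x t)) := by
  have h1 := mfderiv_comp t (P.rdist_mdifferentiableAt hV) hx.mdifferentiableAt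
  have h2 : mfderiv 𝓘(ℝ, ℝ) 𝓘(ℝ, E4) (fun t => P.ψ i (x t)) t 1 =
      mfderiv 𝓘(ℝ, E4) 𝓘(ℝ, E4) (P.ψ i) (x t) (deriv x t) := by
    have h3 : mfderiv 𝓘(ℝ, ℝ) 𝓘(ℝ, E4) x t 1 = deriv x t := by
      rw [mfderiv_eq_fderiv]
      exact fderiv_apply_one_eq_deriv
    have h4 := congrArg (fun L => L 1) h1
    refine h4.trans ?_
    exact congrArg (fun v => mfderiv 𝓘(ℝ, E4) 𝓘(ℝ, E4) (P.ψ i) (x t) v) h3
  exact (congrArg norm h2).trans (P.rdist_mfderiv hV (deriv x t))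

/-- local description of a `C¹` path -/
theorem rdist_path {γ : ℝ → P.Pt} (hγ : ContMDiff 𝓘(ℝ, ℝ) 𝓘(ℝ, E4) 1 γ) (t₀ : ℝ) :
    ∃ (j : P.ι) (x : ℝ → E4), ContDiffAt ℝ 1 x t₀ ∧ x t₀ ∈ P.V j ∧
      ∀ᶠ t in 𝓝 t₀, γ t = P.ψ j (x t) ∧
        ‖mfderiv 𝓘(ℝ, ℝ) 𝓘(ℝ, E4) γ t 1‖ = Real.sqrt (qf (P.g j (x t)) (deriv x t)) := by
  set e := P.chartOf (γ t₀) with he
  have hc := P.chartOf_isChart (γ t₀)
  have he' : e ∈ IsManifold.maximalAtlas 𝓘(ℝ, E4) ∞ P.Pt :=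
    IsManifold.subset_maximalAtlas ⟨_, hc⟩
  have h1 : ContMDiffAt 𝓘(ℝ, E4) 𝓘(ℝ, E4) 1 e (γ t₀) :=
    (contMDiffAt_of_mem_maximalAtlas he' (P.mem_chartOf (γ t₀))).of_le (by simp)
  have h2 : ContMDiffAt 𝓘(ℝ, ℝ) 𝓘(ℝ, E4) 1 (e ∘ γ) t₀ := h1.comp t₀ hγ.contMDiffAt
  have h3 : ContDiffAt ℝ 1 (e ∘ γ) t₀ := contMDiffAt_iff_contDiffAt.1 h2
  have h4 : ∀ᶠ t in 𝓝 t₀, γ t ∈ e.source :=
    hγ.continuous.continuousAt.eventually (e.open_source.mem_nhds (P.mem_chartOf (γ t₀)))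
  have h5 : ∀ t, γ t ∈ e.source → γ t = P.ψ (P.idx (γ t₀)) ((e ∘ γ) t) := by
    intro t ht
    have h6 := hc.2 (e.map_source ht)
    rw [e.left_inv ht] at h6
    exact h6
  have hV : ∀ t, γ t ∈ e.source → (e ∘ γ) t ∈ P.V (P.idx (γ t₀)) := fun t ht =>
    hc.1 (e.map_source ht)
  refine ⟨P.idx (γ t₀), e ∘ γ, h3, hV t₀ (P.mem_chartOf _), ?_⟩
  have h6 : ∀ᶠ t in 𝓝 t₀, ContDiffAt ℝ 1 (e ∘ γ) t := h3.eventually (by simp)
  filter_upwards [h4, h4.eventually_nhds, h6] with t ht ht' ht''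
  refine ⟨h5 t ht, ?_⟩
  have h7 : γ =ᶠ[𝓝 t] fun s => P.ψ (P.idx (γ t₀)) ((e ∘ γ) s) := by
    filter_upwards [ht'] with s hs using h5 s hs
  rw [P.rdist_speed_congr h7]
  exact P.rdist_speed (ht''.differentiableAt (by simp)) (hV t ht)

theorem rdist_continuousAt {γ : ℝ → P.Pt} (hγ : ContMDiff 𝓘(ℝ, ℝ) 𝓘(ℝ, E4) 1 γ) (t₀ : ℝ) :
    ContinuousAt (fun t => ‖mfderiv 𝓘(ℝ, ℝ) 𝓘(ℝ, E4) γ t 1‖) t₀ := by
  obtain ⟨j, x, hx, hV, hev⟩ := P.rdist_path hγ t₀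
  have h1 : (fun t => ‖mfderiv 𝓘(ℝ, ℝ) 𝓘(ℝ, E4) γ t 1‖) =ᶠ[𝓝 t₀]
      fun t => Real.sqrt (qf (P.g j (x t)) (deriv x t)) := by
    filter_upwards [hev] with t ht using ht.2
  refine ContinuousAt.congr ?_ h1.symm
  have h2 : ContinuousAt (deriv x) t₀ := by
    have h3 : ContDiffAt ℝ 0 (fderiv ℝ x) t₀ := hx.fderiv_right (by simp)
    exact h3.continuousAt.clm_apply continuousAt_const
  have h3 : ContinuousAt x t₀ := hx.continuousAt
  refine Real.continuous_sqrt.continuousAt.comp ?_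
  unfold qf
  refine tendsto_finsetSum _ fun k _ => tendsto_finsetSum _ fun l _ => ?_
  have h4 : ContinuousAt (fun t => P.g j (x t) k l) t₀ := by
    have h5 : ContinuousAt (fun c => P.g j c k l) (x t₀) :=
      (((P.good j).smooth k l).continuousOn).continuousAt ((P.isOpen_V j).mem_nhds hV)
    exact h5.comp (f := x) h3
  have h5 : ∀ k, ContinuousAt (fun t => deriv x t k) t₀ := fun k =>
    (EuclideanSpace.proj (𝕜 := ℝ) k).continuous.continuousAt.comp h2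
  exact (h4.mul (h5 k)).mul (h5 l)

theorem rdist_slope {γ : ℝ → P.Pt} (hγ : ContMDiff 𝓘(ℝ, ℝ) 𝓘(ℝ, E4) 1 γ) (p : P.Pt) (t₀ : ℝ)
    {r : ℝ} (hr : ‖mfderiv 𝓘(ℝ, ℝ) 𝓘(ℝ, E4) γ t₀ 1‖ < r) :
    ∀ᶠ z in 𝓝[>] t₀, slope (fun t => dist p (γ t)) t₀ z < r := by
  obtain ⟨j, x, hx, hV, hev⟩ := P.rdist_path hγ t₀
  have hv := hev.self_of_nhds.2
  have hγ0 := hev.self_of_nhds.1
  set N : E4 → ℝ := fun w => Real.sqrt (qf (P.g j (x t₀)) w) with hN
  have hNc : Continuous N := by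
    refine Real.continuous_sqrt.comp ?_
    unfold qf
    fun_prop
  rw [hv] at hr
  have hv0 : 0 ≤ N (deriv x t₀) := Real.sqrt_nonneg _
  obtain ⟨ε, hε, hεr⟩ : ∃ ε > (0 : ℝ), (1 + ε) * N (deriv x t₀) < r := by
    refine ⟨(r - N (deriv x t₀)) / (2 * (N (deriv x t₀) + 1)), ?_, ?_⟩
    · have : 0 < r - N (deriv x t₀) := sub_pos.2 hr
      positivity
    · have h1 : 0 < r - N (deriv x t₀) := sub_pos.2 hr
      have h2 : (r - N (deriv x t₀)) / (2 * (N (deriv x t₀) + 1)) * N (deriv x t₀) ≤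
          (r - N (deriv x t₀)) / 2 := by
        rw [div_mul_eq_mul_div, div_le_div_iff₀ (by positivity) (by norm_num)]
        nlinarith
      linarith
  have hd : HasDerivAt x (deriv x t₀) t₀ := (hx.differentiableAt (by simp)).hasDerivAt
  have h1 : Tendsto (fun z => (1 + ε) * N (slope x t₀ z)) (𝓝[>] t₀)
      (𝓝 ((1 + ε) * N (deriv x t₀))) := by
    have h2 : Tendsto (slope x t₀) (𝓝[>] t₀) (𝓝 (deriv x t₀)) :=
      (hasDerivAt_iff_tendsto_slope.1 hd).mono_left (nhdsWithin_mono _ fun z hz => ne_of_gt hz)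
    exact ((hNc.tendsto _).comp h2).const_mul _
  have h2 : ∀ᶠ z in 𝓝[>] t₀, (1 + ε) * N (slope x t₀ z) < r := h1.eventually (gt_mem_nhds hεr)
  have h3 : ∀ᶠ z in 𝓝[>] t₀, dist (P.ψ j (x z)) (P.ψ j (x t₀)) ≤
      (1 + ε) * N (x z - x t₀) := by
    have h4 := P.dist_upper hV hε
    have h5 : Tendsto (fun z => (x z, x t₀)) (𝓝[>] t₀) (𝓝 (x t₀, x t₀)) :=
      (hd.continuousAt.mono_left nhdsWithin_le_nhds).prodMk_nhds tendsto_const_nhds
    exact h5.eventually h4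
  filter_upwards [h2, h3, hev.filter_mono nhdsWithin_le_nhds, self_mem_nhdsWithin] with z h2 h3 h4 hz
  have hz' : 0 < z - t₀ := sub_pos.2 hz
  rw [slope_def_field, div_lt_iff₀ hz']
  have h5 : dist p (γ z) - dist p (γ t₀) ≤ dist (γ z) (γ t₀) := by
    have := dist_triangle p (γ t₀) (γ z)
    rw [dist_comm (γ t₀)] at this
    linarith
  rw [h4.1, hγ0] at h5
  rw [h4.1, hγ0]
  refine (h5.trans h3).trans_lt ?_
  have h6 : N (x z - x t₀) = (z - t₀) * N (slope x t₀ z) := by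
    have h7 : x z - x t₀ = (z - t₀) • slope x t₀ z := (sub_smul_slope x t₀ z).symm
    rw [h7, hN]
    simp only
    rw [sqrt_qf_smul, abs_of_pos hz']
  rw [h6]
  calc (1 + ε) * ((z - t₀) * N (slope x t₀ z)) = ((1 + ε) * N (slope x t₀ z)) * (z - t₀) := by
        ring
    _ < r * (z - t₀) := mul_lt_mul_of_pos_right h2 hz'

theorem dist_le_riemannianEDist (p q : P.Pt) :
    edist p q ≤ Manifold.riemannianEDist 𝓘(ℝ, E4) p q := by
  refine le_of_forall_gt fun r hr => ?_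
  obtain ⟨γ, hγ0, hγ1, hγ, hlen, -, -⟩ :=
    Manifold.exists_lt_locally_constant_of_riemannianEDist_lt hr zero_lt_one
  refine lt_of_le_of_lt ?_ hlen
  set v : ℝ → ℝ := fun t => ‖mfderiv 𝓘(ℝ, ℝ) 𝓘(ℝ, E4) γ t 1‖ with hvdef
  have hv : Continuous v := continuous_iff_continuousAt.2 fun t => P.rdist_continuousAt hγ t
  have hv0 : ∀ t, 0 ≤ v t := fun t => norm_nonneg _
  have hF : ContinuousOn (fun t => dist p (γ t)) (Set.Icc 0 1) :=
    (continuous_const.dist hγ.continuous).continuousOn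
  have hB : ∀ t, HasDerivAt (fun t => ∫ s in (0 : ℝ)..t, v s) (v t) t := fun t =>
    (hv.integral_hasStrictDerivAt 0 t).hasDerivAt
  have key := image_le_of_liminf_slope_right_le_deriv_boundary hF
    (B := fun t => ∫ s in (0 : ℝ)..t, v s) (B' := v) (by simp [hγ0])
    (fun t _ => (hB t).continuousAt.continuousWithinAt)
    (fun t _ => (hB t).hasDerivWithinAt)
    (fun t _ r hr => (P.rdist_slope hγ p t hr).frequently)
    (Set.right_mem_Icc.2 zero_le_one)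
  simp only [hγ1] at key
  rw [edist_dist, Manifold.pathELength_eq_lintegral_mfderiv_Icc]
  refine (ENNReal.ofReal_le_ofReal key).trans ?_
  rw [intervalIntegral.integral_of_le zero_le_one, ← MeasureTheory.integral_Icc_eq_integral_Ioc,
    MeasureTheory.ofReal_integral_eq_lintegral_ofReal (hv.continuousOn.integrableOn_Icc)
      (Eventually.of_forall hv0)]
  refine MeasureTheory.lintegral_mono fun t => ?_
  exact (ofReal_norm _).le

theorem isRiemannianManifold : IsRiemannianManifold 𝓘(ℝ, E4) P.Pt :=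
  ⟨fun p q => le_antisymm (P.dist_le_riemannianEDist p q) (P.riemannianEDist_le_dist p q)⟩

end Patchwork

end Pool.Agent.W_MP_654ec6
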