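import Pool.Agent.W_MP_654ec6.A.Koszul
import Pool.Agent.W_MP_654ec6.B.RDist

/-!
# Task B13: a complete patchwork with `Ric ≥ κ` is a complete Riemannian manifold with `Ric ≥ κ`

`chartMet P.Pt P.riem x` coincides with `P.g (P.idx x)` on the open set `(chartOf x).target`
(`chartMet_eq`), so the Ricci tensors agree there (`ricq_congr`).
-/

open scoped Manifold ContDiff Topology
open Filter Bundle

namespace Pool.Agent.W_MP_654ec6

theorem Patchwork.isCompleteRicciGE (P : Patchwork) (hc : CompleteSpace P.Pt) {κ : ℝ}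
    (h : ∀ i, ∀ a ∈ P.V i, RicGE (P.g i) κ a) : IsCompleteRicciGE P.Pt κ := by
  refine ⟨hc, P.instChartedSpace, P.instIsManifold, P.riem, P.isRiemannianManifold, ?_⟩
  intro x v
  have hext : extChartAt 𝓘(ℝ, E4) x x = P.chartOf x x := by
    simp only [mfld_simps]
    rfl
  have hmem : P.chartOf x x ∈ (P.chartOf x).target := (P.chartOf x).map_source (P.mem_chartOf x)
  have hV : P.chartOf x x ∈ P.V (P.idx x) := (P.chartOf_isChart x).1 hmem
  rw [hext]
  have hev : chartMet P.Pt P.riem x =ᶠ[𝓝 (P.chartOf x x)] P.g (P.idx x) := by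
    filter_upwards [(P.chartOf x).open_target.mem_nhds hmem] with y hy
    exact P.chartMet_eq x hy
  rw [ricq_congr hev v, P.chartMet_eq x hmem]
  exact h (P.idx x) (P.chartOf x x) hV v

end Pool.Agent.W_MP_654ec6
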