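import Pool.Agent.W_MP_654ec6.B.Defs

/-!
# Task B9: the clamp lemma and the comparison lemma

`clamp_one`: for `f` `K`-Lipschitz on a metric space `Y`, `c ∈ Y`, `ρ, ε > 0`, put
`h y = K (1 + ε) max 0 (dist y c - ρ)` and `f₁ y = max (f c - h y) (min (f c + h y) (f y))`.
Then `f₁` is `K (1 + ε)`-Lipschitz, `f₁ = f c` on `ball c ρ`, `f₁ = f` where
`(1 + ε) ρ ≤ ε dist y c` (there `|f y - f c| ≤ K dist y c ≤ h y`), and `|f₁ - f| ≤ K ρ`.
`clamp_many`: apply it successively at `c 0, c 1, ..., c (n-1)`: the `j`-th step does not change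
the function on the earlier balls. Induction on `n`.
`compare`: `X` has the property `LocLipProp`. Fix `q₀ ∈ X`, let `f = dist · (Θ q₀)` on `Y`, `f₁` as
in `clamp_many`. Then `f₁ ∘ Θ` is infinitesimally `K ∏ (1 + ε j)`-Lipschitz at every `p ∈ X`
(in the second case it is constant near `p`), hence Lipschitz.
-/

open scoped ContDiff Topology
open Filter

namespace Pool.Agent.W_MP_654ec6

theorem clamp_one {Y : Type} [MetricSpace Y] {f : Y → ℝ} {K : ℝ} (hK : 0 ≤ K)
    (hf : ∀ y z, |f y - f z| ≤ K * dist y z) (c : Y) {ρ ε : ℝ} (hρ : 0 < ρ) (hε : 0 < ε) :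
    ∃ f₁ : Y → ℝ, (∀ y z, |f₁ y - f₁ z| ≤ K * (1 + ε) * dist y z) ∧
      (∀ y, dist y c < ρ → f₁ y = f c) ∧ (∀ y, (1 + ε) * ρ ≤ ε * dist y c → f₁ y = f y) ∧
      ∀ y, |f₁ y - f y| ≤ K * ρ := by
  set h : Y → ℝ := fun y => K * (1 + ε) * max 0 (dist y c - ρ) with hh
  have hKε : 0 ≤ K * (1 + ε) := by positivity
  have hnn : ∀ y, 0 ≤ h y := fun y => mul_nonneg hKε (le_max_left _ _)
  have hlip : ∀ y z, |h y - h z| ≤ K * (1 + ε) * dist y z := by
    intro y z
    have h1 : |max 0 (dist y c - ρ) - max 0 (dist z c - ρ)| ≤ dist y z := by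
      refine (abs_max_sub_max_le_max _ _ _ _).trans ?_
      have h2 : |dist y c - dist z c| ≤ dist y z := abs_dist_sub_le y z c
      have h3 : dist y c - ρ - (dist z c - ρ) = dist y c - dist z c := by ring
      rw [h3, sub_zero, abs_zero]
      exact max_le dist_nonneg h2
    have h4 : h y - h z = K * (1 + ε) * (max 0 (dist y c - ρ) - max 0 (dist z c - ρ)) := by
      simp only [hh]; ring
    rw [h4, abs_mul, abs_of_nonneg hKε]
    exact mul_le_mul_of_nonneg_left h1 hKε
  have hfK : ∀ y z, |f y - f z| ≤ K * (1 + ε) * dist y z := by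
    intro y z
    refine (hf y z).trans ?_
    have : 0 ≤ K * ε * dist y z := by positivity
    nlinarith
  refine ⟨fun y => max (f c - h y) (min (f c + h y) (f y)), ?_, ?_, ?_, ?_⟩
  · intro y z
    refine (abs_max_sub_max_le_max _ _ _ _).trans (max_le ?_ ?_)
    · have h1 : f c - h y - (f c - h z) = -(h y - h z) := by ring
      rw [h1, abs_neg]
      exact hlip y z
    · refine (abs_min_sub_min_le_max _ _ _ _).trans (max_le ?_ (hfK y z))
      have h1 : f c + h y - (f c + h z) = h y - h z := by ring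
      rw [h1]
      exact hlip y z
  · intro y hy
    have h0 : h y = 0 := by
      simp only [hh]
      rw [max_eq_left (by linarith), mul_zero]
    simp only [h0, sub_zero, add_zero]
    exact max_eq_left (min_le_left _ _)
  · intro y hy
    have h1 : K * dist y c ≤ h y := by
      have h2 : dist y c ≤ (1 + ε) * (dist y c - ρ) := by nlinarith
      have h3 : (1 + ε) * (dist y c - ρ) ≤ (1 + ε) * max 0 (dist y c - ρ) :=
        mul_le_mul_of_nonneg_left (le_max_right _ _) (by linarith)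
      calc K * dist y c ≤ K * ((1 + ε) * max 0 (dist y c - ρ)) :=
            mul_le_mul_of_nonneg_left (h2.trans h3) hK
        _ = h y := by simp only [hh]; ring
    have h2 := abs_le.1 ((hf y c).trans h1)
    change max (f c - h y) (min (f c + h y) (f y)) = f y
    rw [min_eq_right (by linarith [h2.2]), max_eq_right (by linarith [h2.1])]
  · intro y
    have hb : K * dist y c - h y ≤ K * ρ := by
      rcases le_total (dist y c) ρ with hd | hd
      · have := mul_le_mul_of_nonneg_left hd hK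
        linarith [hnn y]
      · have h1 : h y = K * (1 + ε) * (dist y c - ρ) := by
          simp only [hh]
          rw [max_eq_right (by linarith)]
        rw [h1]
        have : 0 ≤ K * ε * (dist y c - ρ) := by
          have : 0 ≤ dist y c - ρ := by linarith
          positivity
        nlinarith
    have h2 := abs_le.1 (hf y c)
    have hKρ : 0 ≤ K * ρ := by positivity
    change |max (f c - h y) (min (f c + h y) (f y)) - f y| ≤ K * ρ
    rw [abs_le]
    constructor
    · have h3 : f y - K * ρ ≤ min (f c + h y) (f y) := le_min (by linarith) (by linarith)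
      have := h3.trans (le_max_right (f c - h y) (min (f c + h y) (f y)))
      linarith
    · have h3 : max (f c - h y) (min (f c + h y) (f y)) ≤ f y + K * ρ :=
        max_le (by linarith) ((min_le_right _ _).trans (by linarith))
      linarith

theorem clamp_many {Y : Type} [MetricSpace Y] (n : ℕ) (c : Fin n → Y) (ρ ε : Fin n → ℝ)
    (hρ : ∀ j, 0 < ρ j) (hε : ∀ j, 0 < ε j)
    (hsep : ∀ i j, i < j → ρ i + (1 + ε j) * ρ j / ε j ≤ dist (c i) (c j)) {f : Y → ℝ} {K : ℝ}
    (hK : 0 ≤ K) (hf : ∀ y z, |f y - f z| ≤ K * dist y z) :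
    ∃ f₁ : Y → ℝ, (∀ y z, |f₁ y - f₁ z| ≤ K * (∏ j, (1 + ε j)) * dist y z) ∧
      (∀ j y z, dist y (c j) < ρ j → dist z (c j) < ρ j → f₁ y = f₁ z) ∧
      ∀ y, |f₁ y - f y| ≤ K * (∏ j, (1 + ε j)) * ∑ j, ρ j := by
  induction n with
  | zero =>
    refine ⟨f, fun y z => ?_, fun j => j.elim0, fun y => ?_⟩
    · simpa using hf y z
    · simp
  | succ n ih =>
    obtain ⟨f₁, h1, h2, h3⟩ := ih (fun j => c j.castSucc) (fun j => ρ j.castSucc)
      (fun j => ε j.castSucc) (fun j => hρ _) (fun j => hε _)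
      (fun i j hij => hsep _ _ (by simpa using hij))
    set M : ℝ := ∏ j : Fin n, (1 + ε j.castSucc) with hM
    have hM0 : 0 ≤ M := Finset.prod_nonneg fun j _ => by linarith [hε j.castSucc]
    have hKM : 0 ≤ K * M := mul_nonneg hK hM0
    have hεl := hε (Fin.last n)
    have hρl := hρ (Fin.last n)
    obtain ⟨f₂, k1, k2, k3, k4⟩ := clamp_one hKM h1 (c (Fin.last n)) hρl hεl
    have hS0 : 0 ≤ ∑ j : Fin n, ρ j.castSucc := Finset.sum_nonneg fun j _ => (hρ _).le
    have hsame : ∀ (j : Fin n) (y : Y), dist y (c j.castSucc) < ρ j.castSucc → f₂ y = f₁ y := by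
      intro j y hy
      apply k3
      have hs := hsep j.castSucc (Fin.last n) (Fin.castSucc_lt_last j)
      have ht : dist (c j.castSucc) (c (Fin.last n)) ≤
          dist y (c j.castSucc) + dist y (c (Fin.last n)) := by
        rw [dist_comm y (c j.castSucc)]
        exact dist_triangle _ _ _
      have h5 : (1 + ε (Fin.last n)) * ρ (Fin.last n) / ε (Fin.last n) ≤
          dist y (c (Fin.last n)) := by linarith
      rw [div_le_iff₀ hεl] at h5
      linarith
    refine ⟨f₂, ?_, ?_, ?_⟩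
    · intro y z
      rw [Fin.prod_univ_castSucc, ← hM, ← mul_assoc]
      exact k1 y z
    · intro j
      refine Fin.lastCases ?_ (fun j => ?_) j
      · intro y z hy hz
        rw [k2 y hy, k2 z hz]
      · intro y z hy hz
        rw [hsame j y hy, hsame j z hz]
        exact h2 j y z hy hz
    · intro y
      rw [Fin.prod_univ_castSucc, Fin.sum_univ_castSucc, ← hM]
      have h5 : |f₂ y - f y| ≤ |f₂ y - f₁ y| + |f₁ y - f y| := abs_sub_le _ _ _
      have h6 := k4 y
      have h7 := h3 y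
      have h8 : 0 ≤ K * M * ε (Fin.last n) *
          (∑ j : Fin n, ρ j.castSucc + ρ (Fin.last n)) := by positivity
      nlinarith

theorem compare {X Y : Type} [MetricSpace X] [MetricSpace Y] (hX : LocLipProp X) (Θ : X → Y)
    (n : ℕ) (c : Fin n → Y) (ρ ε : Fin n → ℝ) (hρ : ∀ j, 0 < ρ j) (hε : ∀ j, 0 < ε j)
    (hsep : ∀ i j, i < j → ρ i + (1 + ε j) * ρ j / ε j ≤ dist (c i) (c j)) {K : ℝ} (hK : 0 ≤ K)
    (h : ∀ p : X, (∀ δ > (0 : ℝ), ∀ᶠ q in 𝓝 (p, p),
        dist (Θ q.1) (Θ q.2) ≤ (K + δ) * dist q.1 q.2) ∨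
      ∃ j, ∀ᶠ q in 𝓝 p, dist (Θ q) (c j) < ρ j) (p q : X) :
    dist (Θ p) (Θ q) ≤ K * (∏ j, (1 + ε j)) * dist p q + 2 * (∏ j, (1 + ε j)) * ∑ j, ρ j := by
  have hlip : ∀ y z : Y, |dist y (Θ q) - dist z (Θ q)| ≤ 1 * dist y z := by
    intro y z
    rw [one_mul]
    exact abs_dist_sub_le y z (Θ q)
  obtain ⟨f₁, h1, h2, h3⟩ := clamp_many n c ρ ε hρ hε hsep zero_le_one hlip
  set M : ℝ := ∏ j, (1 + ε j) with hM
  have hM0 : 0 < M := Finset.prod_pos fun j _ => by linarith [hε j]
  have key := hX (fun x => f₁ (Θ x)) (K * M) (mul_nonneg hK hM0.le) (by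
    intro x δ hδ
    rcases h x with hx | ⟨j, hj⟩
    · filter_upwards [hx (δ / M) (by positivity)] with w hw
      refine (h1 _ _).trans ?_
      rw [one_mul]
      calc M * dist (Θ w.1) (Θ w.2) ≤ M * ((K + δ / M) * dist w.1 w.2) :=
            mul_le_mul_of_nonneg_left hw hM0.le
        _ = (K * M + δ) * dist w.1 w.2 := by field_simp
    · have hj' : ∀ᶠ w in 𝓝 (x, x), dist (Θ w.1) (c j) < ρ j ∧ dist (Θ w.2) (c j) < ρ j :=
        Filter.Eventually.and ((continuous_fst.tendsto (x, x)).eventually hj)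
          ((continuous_snd.tendsto (x, x)).eventually hj)
      filter_upwards [hj'] with w hw
      rw [h2 j _ _ hw.1 hw.2, sub_self, abs_zero]
      have : 0 ≤ K * M := mul_nonneg hK hM0.le
      positivity) p q
  have e1 := abs_le.1 (h3 (Θ p))
  have e2 := abs_le.1 (h3 (Θ q))
  have e3 := abs_le.1 key
  rw [dist_self] at e2
  rw [one_mul] at e1 e2
  have e4 : dist (Θ p) (Θ q) ≤ f₁ (Θ p) + M * ∑ j, ρ j := by linarith [e1.1]
  have e5 : f₁ (Θ q) ≤ M * ∑ j, ρ j := by linarith [e2.2]
  have e6 : f₁ (Θ p) ≤ f₁ (Θ q) + K * M * dist p q := by linarith [e3.2]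
  linarith

end Pool.Agent.W_MP_654ec6
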