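import Pool.Agent.W_MP_654ec6.B.Topo

/-!
# Task B8: a criterion for completeness

Let `ρ` be a Lipschitz function on `Pt` such that for every `R` the set `{ρ ≤ R}` is covered by the
images of finitely many compact sets `C i ⊆ V i`. Then `Pt` is complete: a Cauchy sequence is
bounded, so `ρ` is bounded on it by some `R`, so it stays in a finite union of compact sets
(`continuousOn_psi`), hence it converges.
-/

open scoped ContDiff Topology
open Filter

namespace Pool.Agent.W_MP_654ec6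

theorem Patchwork.complete_of_compact (P : Patchwork) (ρ : P.Pt → ℝ) (K : ℝ)
    (hρ : ∀ p q : P.Pt, |ρ p - ρ q| ≤ K * dist p q)
    (h : ∀ R : ℝ, ∃ (s : Finset P.ι) (C : P.ι → Set E4), (∀ i ∈ s, IsCompact (C i) ∧ C i ⊆ P.V i) ∧
      ∀ p : P.Pt, ρ p ≤ R → ∃ i ∈ s, ∃ a ∈ C i, P.ψ i a = p) : CompleteSpace P.Pt := by
  apply Metric.complete_of_cauchySeq_tendsto
  intro u hu
  obtain ⟨B, -, hB⟩ := cauchySeq_bdd hu
  have hR : ∀ n, ρ (u n) ≤ ρ (u 0) + |K| * B := by
    intro n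
    have h1 := hρ (u n) (u 0)
    have h2 := le_abs_self (ρ (u n) - ρ (u 0))
    have h3 : K * dist (u n) (u 0) ≤ |K| * B := by
      refine (mul_le_mul_of_nonneg_right (le_abs_self K) dist_nonneg).trans ?_
      exact mul_le_mul_of_nonneg_left (hB n 0).le (abs_nonneg K)
    linarith
  obtain ⟨s, C, hC, hcov⟩ := h (ρ (u 0) + |K| * B)
  have hcomp : IsCompact (⋃ i ∈ s, P.ψ i '' C i) :=
    s.isCompact_biUnion fun i hi =>
      (hC i hi).1.image_of_continuousOn ((P.continuousOn_psi i).mono (hC i hi).2)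
  have hmem : ∀ n, u n ∈ ⋃ i ∈ s, P.ψ i '' C i := by
    intro n
    obtain ⟨i, hi, a, ha, hp⟩ := hcov (u n) (hR n)
    exact Set.mem_biUnion hi ⟨a, ha, hp⟩
  obtain ⟨x, -, φ, hφ, hx⟩ := hcomp.tendsto_subseq hmem
  exact ⟨x, tendsto_nhds_of_cauchySeq_of_subseq hu hφ.tendsto_atTop hx⟩

end Pool.Agent.W_MP_654ec6
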