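import Pool.Agent.W_MP_654ec6.A.Defs

/-!
# Part B (metric spaces from patches): definitions

A `Patchwork` is a connected Hausdorff Riemannian manifold given by local parametrisations
`ψ i : V i → Pt`. `Lip K f` says that `f : Pt → ℝ` is infinitesimally `K`-Lipschitz in all patches,
and the distance is `dst p q = sup {f p - f q : f is 1-Lipschitz}`.
-/

open scoped ContDiff Topology
open Filter

namespace Pool.Agent.W_MP_654ec6

structure Patchwork where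
  ι : Type
  V : ι → Set E4
  g : ι → Met
  Pt : Type
  ψ : ι → E4 → Pt
  isOpen_V : ∀ i, IsOpen (V i)
  good : ∀ i, GoodMet (g i) (V i)
  base : Pt
  cover : ∀ p : Pt, ∃ i, ∃ a ∈ V i, ψ i a = p
  inj : ∀ i, ∀ a ∈ V i, ∃ U ∈ 𝓝 a, Set.InjOn (ψ i) U
  trans : ∀ i j, ∀ a ∈ V i, ∀ b ∈ V j, ψ i a = ψ j b →
    ∃ θ : E4 → E4, θ a = b ∧ IsoAt (g i) (g j) θ a ∧ ∀ᶠ x in 𝓝 a, ψ j (θ x) = ψ i x
  sep : ∀ i j, ∀ a ∈ V i, ∀ b ∈ V j, ψ i a ≠ ψ j b → ∀ᶠ q in 𝓝 (a, b), ψ i q.1 ≠ ψ j q.2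
  conn : ∀ p q : Pt, Relation.ReflTransGen
    (fun p q => ∃ i a b, segment ℝ a b ⊆ V i ∧ ψ i a = p ∧ ψ i b = q) p q

namespace Patchwork

variable (P : Patchwork)

/-- `f` is infinitesimally `K`-Lipschitz at the point `a` of the patch `i`. -/
def LipAt (K : ℝ) (f : P.Pt → ℝ) (i : P.ι) (a : E4) : Prop :=
  ∀ ε > (0 : ℝ), ∀ᶠ q in 𝓝 (a, a), |f (P.ψ i q.1) - f (P.ψ i q.2)| ≤
    (K + ε) * Real.sqrt (qf (P.g i a) (q.1 - q.2))

/-- `f` is infinitesimally `K`-Lipschitz everywhere. -/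
def Lip (K : ℝ) (f : P.Pt → ℝ) : Prop := ∀ i, ∀ a ∈ P.V i, P.LipAt K f i a

/-- The distance. -/
noncomputable def dst (p q : P.Pt) : ℝ := sSup {r | ∃ f : P.Pt → ℝ, P.Lip 1 f ∧ r = f p - f q}

end Patchwork

/-- A metric space in which functions which are infinitesimally `K`-Lipschitz at every point are
`K`-Lipschitz. -/
def LocLipProp (X : Type) [MetricSpace X] : Prop :=
  ∀ (f : X → ℝ) (K : ℝ), 0 ≤ K →
    (∀ p : X, ∀ ε > (0 : ℝ), ∀ᶠ q in 𝓝 (p, p), |f q.1 - f q.2| ≤ (K + ε) * dist q.1 q.2) →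
    ∀ p q : X, |f p - f q| ≤ K * dist p q

end Pool.Agent.W_MP_654ec6
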