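import Pool.Agent.W_MP_654ec6.B.LipBasic

/-!
# Task B3: tent functions

Let `closedBall a r ⊆ V i`, let `ψ i` be injective on `closedBall a r`, and let
`c ‖v‖ ≤ √(qf (g i x) v)` for all `x ∈ closedBall a r` (`tent`) or, more precisely,
`√(qf m v) ≤ √(qf (g i x) v)` for a positive definite symmetric matrix `m` (`tentM`).
For `x ∈ closedBall a (r/4)` the function `T` which is `max 0 (ρ - √(qf m (y - x)))` at `ψ i y`,
`y ∈ closedBall a r`, and `0` outside `ψ i (closedBall a r)`, where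
`ρ = inf of √(qf m v) over ‖v‖ = r/2`, is `1`-Lipschitz: it is supported in
`ψ i (closedBall x (r/2))`, contained in `ψ i (ball a r)`. At points `ψ i y`, `y ∈ ball a r`, this
is the triangle inequality for `√qf m`. At any other point `ψ j b` the function vanishes near `b`:
otherwise there are `b_n → b` and `y_n ∈ closedBall x (r/2)` with `ψ j b_n = ψ i y_n`; a
subsequence of `y_n` converges to `y`, and `P.sep` gives `ψ j b = ψ i y`, `y ∈ ball a r`: but
then `ψ j b` is one of the points of the first kind.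
(Handle a point of the first kind in another patch with `lip_of_exists`.)
-/

open scoped ContDiff Topology
open Filter

namespace Pool.Agent.W_MP_654ec6

/-- `√(qf m v) - √(qf m w) ≤ √(qf m (v - w))` in absolute value. -/
theorem tent_abs_sub {m : Matrix (Fin 4) (Fin 4) ℝ} (hs : ∀ i j, m i j = m j i)
    (hp : ∀ v : E4, v ≠ 0 → 0 < qf m v) (v w : E4) :
    |Real.sqrt (qf m v) - Real.sqrt (qf m w)| ≤ Real.sqrt (qf m (v - w)) := by
  have h1 := sqrt_qf_add hs hp (v - w) w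
  have h2 := sqrt_qf_add hs hp (w - v) v
  rw [sub_add_cancel] at h1 h2
  have h3 : Real.sqrt (qf m (w - v)) = Real.sqrt (qf m (v - w)) := by
    have h4 := sqrt_qf_smul m (-1) (v - w)
    rw [abs_neg, abs_one, one_mul] at h4
    rw [← h4]
    congr 2
    module
  rw [abs_le]
  constructor <;> linarith

theorem tent_max_sub (ρ s t : ℝ) : |max 0 (ρ - s) - max 0 (ρ - t)| ≤ |s - t| := by
  have h := abs_max_sub_max_le_abs (ρ - s) (ρ - t) 0
  rw [max_comm 0 (ρ - s), max_comm 0 (ρ - t)]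
  refine h.trans (le_of_eq ?_)
  rw [abs_sub_comm]
  congr 1
  ring

namespace Patchwork

variable (P : Patchwork)

open Classical in
/-- The tent function. -/
noncomputable def tentF (i : P.ι) (A : Set E4) (u : E4 → ℝ) (p : P.Pt) : ℝ :=
  if h : ∃ y ∈ A, P.ψ i y = p then u h.choose else 0

theorem tentF_apply {i : P.ι} {A : Set E4} (hinj : Set.InjOn (P.ψ i) A) (u : E4 → ℝ) {y : E4}
    (hy : y ∈ A) : P.tentF i A u (P.ψ i y) = u y := by
  have h : ∃ y' ∈ A, P.ψ i y' = P.ψ i y := ⟨y, hy, rfl⟩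
  unfold tentF
  rw [dif_pos h]
  congr 1
  exact hinj h.choose_spec.1 hy h.choose_spec.2

theorem tentF_out {i : P.ι} {A : Set E4} (u : E4 → ℝ) {p : P.Pt} (hp : p ∉ P.ψ i '' A) :
    P.tentF i A u p = 0 := by
  unfold tentF
  rw [dif_neg]
  rintro ⟨y, hy, rfl⟩
  exact hp ⟨y, hy, rfl⟩

theorem tentM {i : P.ι} {a : E4} {r ρ : ℝ} (hr : 0 < r) (hV : Metric.closedBall a r ⊆ P.V i)
    (hinj : Set.InjOn (P.ψ i) (Metric.closedBall a r)) {m : Matrix (Fin 4) (Fin 4) ℝ}
    (hs : ∀ i j, m i j = m j i) (hp : ∀ v : E4, v ≠ 0 → 0 < qf m v)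
    (hm : ∀ x ∈ Metric.closedBall a r, ∀ v : E4,
      Real.sqrt (qf m v) ≤ Real.sqrt (qf (P.g i x) v))
    (hρ : ∀ v : E4, r / 2 ≤ ‖v‖ → ρ ≤ Real.sqrt (qf m v)) {x : E4}
    (hx : x ∈ Metric.closedBall a (r / 4)) :
    ∃ f : P.Pt → ℝ, P.Lip 1 f ∧
      (∀ y ∈ Metric.closedBall a r, f (P.ψ i y) = max 0 (ρ - Real.sqrt (qf m (y - x)))) ∧
      ∀ p : P.Pt, p ∉ P.ψ i '' Metric.closedBall a r → f p = 0 := by
  classical
  obtain ⟨f, hf⟩ : ∃ f : P.Pt → ℝ, f = P.tentF i (Metric.closedBall a r)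
    (fun y => max 0 (ρ - Real.sqrt (qf m (y - x)))) := ⟨_, rfl⟩
  have hf1 : ∀ y ∈ Metric.closedBall a r,
      f (P.ψ i y) = max 0 (ρ - Real.sqrt (qf m (y - x))) := by
    intro y hy
    rw [hf]
    exact P.tentF_apply hinj _ hy
  have hf2 : ∀ p : P.Pt, p ∉ P.ψ i '' Metric.closedBall a r → f p = 0 := by
    intro p hp
    rw [hf]
    exact P.tentF_out _ hp
  refine ⟨f, ?_, hf1, hf2⟩
  refine P.lip_of_exists zero_le_one fun p => ?_
  by_cases h : p ∈ P.ψ i '' Metric.ball a r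
  · obtain ⟨y, hy, rfl⟩ := h
    have hyc : y ∈ Metric.closedBall a r := Metric.ball_subset_closedBall hy
    refine ⟨i, y, hV hyc, rfl, ?_⟩
    intro ε hε
    have h1 : ∀ᶠ z in 𝓝 y, z ∈ Metric.ball a r := Metric.isOpen_ball.mem_nhds hy
    have h2 : ∀ᶠ q in 𝓝 (y, y), q.1 ∈ Metric.ball a r ∧ q.2 ∈ Metric.ball a r := by
      rw [nhds_prod_eq]
      exact h1.prod_mk h1
    filter_upwards [h2] with q hq
    rw [hf1 _ (Metric.ball_subset_closedBall hq.1), hf1 _ (Metric.ball_subset_closedBall hq.2)]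
    refine (tent_max_sub _ _ _).trans ?_
    refine (tent_abs_sub hs hp _ _).trans ?_
    have h3 : q.1 - x - (q.2 - x) = q.1 - q.2 := by abel
    rw [h3]
    refine (hm y hyc _).trans ?_
    have h4 := Real.sqrt_nonneg (qf (P.g i y) (q.1 - q.2))
    nlinarith
  · obtain ⟨j, b, hb, rfl⟩ := P.cover p
    refine ⟨j, b, hb, rfl, ?_⟩
    have hsub : Metric.closedBall x (r / 2) ⊆ Metric.ball a r := by
      intro z hz
      rw [Metric.mem_closedBall] at hz hx
      rw [Metric.mem_ball]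
      have := dist_triangle z x a
      linarith
    have hK : IsCompact (Metric.closedBall x (r / 2)) := isCompact_closedBall _ _
    have h1 : ∀ᶠ b' in 𝓝 b, ∀ y ∈ Metric.closedBall x (r / 2), P.ψ i y ≠ P.ψ j b' := by
      refine hK.eventually_forall_of_forall_eventually fun y hy => ?_
      have hne : P.ψ i y ≠ P.ψ j b := by
        intro heq
        exact h ⟨y, hsub hy, heq⟩
      have h2 := P.sep i j y (hV (Metric.ball_subset_closedBall (hsub hy))) b hb hne
      have h3 : Tendsto (Prod.swap : E4 × E4 → E4 × E4) (𝓝 (b, y)) (𝓝 (y, b)) :=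
        continuous_swap.tendsto (b, y)
      exact h3.eventually h2
    have h4 : ∀ᶠ b' in 𝓝 b, (fun _ => (0 : ℝ)) (P.ψ j b') = f (P.ψ j b') := by
      filter_upwards [h1] with b' hb'
      by_cases h5 : P.ψ j b' ∈ P.ψ i '' Metric.closedBall a r
      · obtain ⟨y, hy, hyb⟩ := h5
        rw [← hyb, hf1 y hy]
        have h6 : y ∉ Metric.closedBall x (r / 2) := fun h7 => hb' y h7 hyb
        rw [Metric.mem_closedBall, not_le, dist_eq_norm] at h6
        have h7 := hρ (y - x) h6.le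
        rw [max_eq_left]
        linarith
      · rw [hf2 _ h5]
    exact P.lipAt_congr (P.lip_const 0 zero_le_one j b hb) h4

theorem tent_qf_one (c : ℝ) (v : E4) :
    qf ((c ^ 2) • (1 : Matrix (Fin 4) (Fin 4) ℝ)) v = (c * ‖v‖) ^ 2 := by
  have h : ‖v‖ ^ 2 = ∑ i, v i ^ 2 := by
    rw [EuclideanSpace.norm_sq_eq]
    simp
  unfold qf
  rw [mul_pow, h, Finset.mul_sum]
  refine Finset.sum_congr rfl fun i _ => ?_
  rw [Finset.sum_eq_single i]
  · simp only [Matrix.smul_apply, Matrix.one_apply_eq, smul_eq_mul, mul_one]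
    ring
  · intro j _ hj
    simp [Matrix.one_apply_ne (Ne.symm hj)]
  · intro hi
    exact absurd (Finset.mem_univ i) hi

theorem tent_sqrt_one {c : ℝ} (hc : 0 < c) (v : E4) :
    Real.sqrt (qf ((c ^ 2) • (1 : Matrix (Fin 4) (Fin 4) ℝ)) v) = c * ‖v‖ := by
  rw [tent_qf_one, Real.sqrt_sq (by positivity)]

/-- The Euclidean version: `c ‖x - y‖ ≤ f (ψ x) - f (ψ y)`. -/
theorem tent {i : P.ι} {a : E4} {r c : ℝ} (hr : 0 < r) (hc : 0 < c)
    (hV : Metric.closedBall a r ⊆ P.V i) (hinj : Set.InjOn (P.ψ i) (Metric.closedBall a r))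
    (hm : ∀ x ∈ Metric.closedBall a r, ∀ v : E4, c * ‖v‖ ≤ Real.sqrt (qf (P.g i x) v)) {x : E4}
    (hx : x ∈ Metric.closedBall a (r / 4)) :
    ∃ f : P.Pt → ℝ, P.Lip 1 f ∧
      (∀ y ∈ Metric.closedBall a r, f (P.ψ i y) = max 0 (c * (r / 2) - c * ‖y - x‖)) ∧
      ∀ p : P.Pt, p ∉ P.ψ i '' Metric.closedBall a r → f p = 0 := by
  have hs : ∀ i j, ((c ^ 2) • (1 : Matrix (Fin 4) (Fin 4) ℝ)) i j =
      ((c ^ 2) • (1 : Matrix (Fin 4) (Fin 4) ℝ)) j i := by
    intro i j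
    rcases eq_or_ne i j with rfl | h
    · rfl
    · simp [Matrix.one_apply_ne h, Matrix.one_apply_ne (Ne.symm h)]
  have hp : ∀ v : E4, v ≠ 0 → 0 < qf ((c ^ 2) • (1 : Matrix (Fin 4) (Fin 4) ℝ)) v := by
    intro v hv
    rw [tent_qf_one]
    have : 0 < ‖v‖ := norm_pos_iff.2 hv
    positivity
  obtain ⟨f, h1, h2, h3⟩ := P.tentM (ρ := c * (r / 2)) hr hV hinj hs hp
    (fun x hx v => by rw [tent_sqrt_one hc]; exact hm x hx v)
    (fun v hv => by rw [tent_sqrt_one hc]; exact mul_le_mul_of_nonneg_left hv hc.le) hx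
  refine ⟨f, h1, fun y hy => ?_, h3⟩
  rw [h2 y hy, tent_sqrt_one hc]

end Patchwork

end Pool.Agent.W_MP_654ec6
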