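import Pool.Agent.W_MP_654ec6.B.Path
import Pool.Agent.W_MP_654ec6.B.Tent

/-!
# Task B4: the metric space of a patchwork

`bddAbove_dst`: induction along `P.conn`; a step inside a patch is bounded by `lip_segment`
(the norms `√qf (g i c) (b - a)` are bounded on the compact segment).
`eq_of_dst`: if `p ≠ q`, `p = ψ i a`, take a small ball around `a` on which `ψ i` is injective and
whose image does not contain `q` (if `q = ψ i y_n`, `y_n → a`, then by `P.sep`, applied to a
parametrisation of `q`, `q = ψ i a`), and a tent function at `a`: it is positive at `p` and zero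
at `q`.
`lip_dist`: `q ↦ dst p q` is `1`-Lipschitz (`lipAt_sup` with `lip_uniform`).
-/

open scoped ContDiff Topology
open Filter

namespace Pool.Agent.W_MP_654ec6

namespace Patchwork

variable (P : Patchwork)

/-- the quadratic form of a fixed vector is continuous along a good metric -/
theorem dist_qf_continuousOn {g : Met} {V : Set E4} (hg : GoodMet g V) (v : E4) :
    ContinuousOn (fun c => qf (g c) v) V := by
  have h1 : ∀ k l, ContinuousOn (fun x => g x k l) V := fun k l => (hg.smooth k l).continuousOn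
  unfold qf
  refine continuousOn_finset_sum _ fun k _ => continuousOn_finset_sum _ fun l _ => ?_
  exact ((h1 k l).mul continuousOn_const).mul continuousOn_const

theorem dist_segment_bound {i : P.ι} {a b : E4} (h : segment ℝ a b ⊆ P.V i) :
    ∃ L : ℝ, 0 ≤ L ∧ ∀ f : P.Pt → ℝ, P.Lip 1 f → |f (P.ψ i a) - f (P.ψ i b)| ≤ L := by
  have hc : IsCompact (segment ℝ a b) := by
    rw [← convexHull_pair (𝕜 := ℝ) a b]
    exact (Set.toFinite _).isCompact_convexHull ℝ
  have h1 : ContinuousOn (fun c => Real.sqrt (qf (P.g i c) (b - a))) (segment ℝ a b) :=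
    ((dist_qf_continuousOn (P.good i) (b - a)).mono h).sqrt
  obtain ⟨L, hL⟩ := hc.exists_bound_of_continuousOn h1
  refine ⟨|L|, abs_nonneg L, fun f hf => ?_⟩
  have h2 := P.lip_segment zero_le_one (abs_nonneg L) hf h
    (fun c hc' => ((le_abs_self _).trans (hL c hc')).trans (le_abs_self L))
  rwa [one_mul] at h2

theorem bddAbove_dst (p q : P.Pt) : BddAbove {r | ∃ f : P.Pt → ℝ, P.Lip 1 f ∧ r = f p - f q} := by
  induction P.conn p q with
  | refl =>
    refine ⟨0, ?_⟩
    rintro r ⟨f, -, rfl⟩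
    simp
  | tail _ hstep ih =>
    obtain ⟨M, hM⟩ := ih
    obtain ⟨i, a, b, hseg, rfl, rfl⟩ := hstep
    obtain ⟨L, -, hL⟩ := P.dist_segment_bound hseg
    refine ⟨M + L, ?_⟩
    rintro r ⟨f, hf, rfl⟩
    have h1 := hM ⟨f, hf, rfl⟩
    have h2 := (le_abs_self _).trans (hL f hf)
    linarith

theorem le_dst {f : P.Pt → ℝ} (hf : P.Lip 1 f) (p q : P.Pt) : |f p - f q| ≤ P.dst p q := by
  rw [abs_le']
  refine ⟨le_csSup (P.bddAbove_dst p q) ⟨f, hf, rfl⟩, ?_⟩
  exact le_csSup (P.bddAbove_dst p q) ⟨fun p => -f p, P.lip_neg hf, by ring⟩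

theorem dst_le {p q : P.Pt} {r : ℝ} (h : ∀ f : P.Pt → ℝ, P.Lip 1 f → f p - f q ≤ r) :
    P.dst p q ≤ r := by
  refine csSup_le ⟨0, fun _ => 0, P.lip_const 0 zero_le_one, by simp⟩ ?_
  rintro s ⟨f, hf, rfl⟩
  exact h f hf

theorem dst_self (p : P.Pt) : P.dst p p = 0 := by
  refine le_antisymm (P.dst_le fun f _ => by simp) ?_
  have := P.le_dst (P.lip_const 0 zero_le_one) p p
  simpa using this

theorem dst_comm (p q : P.Pt) : P.dst p q = P.dst q p := by
  have h : ∀ p q, P.dst p q ≤ P.dst q p := fun p q => P.dst_le fun f hf => by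
    have h1 := P.le_dst hf q p
    have h2 := (neg_le_abs (f q - f p)).trans h1
    linarith
  exact le_antisymm (h p q) (h q p)

theorem dst_triangle (p q r : P.Pt) : P.dst p r ≤ P.dst p q + P.dst q r :=
  P.dst_le fun f hf => by
    have h1 := (le_abs_self _).trans (P.le_dst hf p q)
    have h2 := (le_abs_self _).trans (P.le_dst hf q r)
    linarith

theorem eq_of_dst {p q : P.Pt} (h : P.dst p q = 0) : p = q := by
  by_contra hpq
  obtain ⟨i, a, ha, rfl⟩ := P.cover p
  obtain ⟨j, b, hb, rfl⟩ := P.cover q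
  obtain ⟨U, hU, hinj⟩ := P.inj i a ha
  obtain ⟨c, C, hc, -, hcC⟩ := qf_norm (P.good i) ha
  have h1 : ∀ᶠ x in 𝓝 a, x ∈ P.V i := (P.isOpen_V i).mem_nhds ha
  have h2 : ∀ᶠ x in 𝓝 a, x ∈ U := hU
  have h3 := qf_cont (P.isOpen_V i) (P.good i) ha zero_lt_one
  have h4 : ∀ᶠ x in 𝓝 a, P.ψ i x ≠ P.ψ j b := by
    have h5 := P.sep i j a ha b hb hpq
    rw [nhds_prod_eq] at h5
    exact (h5.curry).mono fun x hx => hx.self_of_nhds
  obtain ⟨r, hr, hball⟩ := Metric.eventually_nhds_iff_ball.1 (h1.and (h2.and (h3.and h4)))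
  have hr2 : 0 < r / 2 := by positivity
  have hsub : Metric.closedBall a (r / 2) ⊆ Metric.ball a r :=
    Metric.closedBall_subset_ball (by linarith)
  obtain ⟨f, hf, hf1, hf2⟩ := P.tent (i := i) (a := a) (r := r / 2) (c := c / 2) hr2 (by positivity)
    (fun x hx => (hball x (hsub hx)).1)
    (fun x hx y hy hxy => hinj (hball x (hsub hx)).2.1 (hball y (hsub hy)).2.1 hxy)
    (fun x hx v => by
      have h5 := (hcC v).1
      have h6 := ((hball x (hsub hx)).2.2.1 v).2
      linarith)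
    (x := a) (Metric.mem_closedBall_self (by positivity))
  have h5 := hf1 a (Metric.mem_closedBall_self hr2.le)
  have h6 := hf2 (P.ψ j b) (by
    rintro ⟨x, hx, hxb⟩
    exact (hball x (hsub hx)).2.2.2 hxb)
  have h7 := P.le_dst hf (P.ψ i a) (P.ψ j b)
  rw [h, h5, h6, sub_self, norm_zero, mul_zero, sub_zero, sub_zero] at h7
  have h8 : 0 < c / 2 * (r / 2 / 2) := by positivity
  rw [max_eq_right h8.le, abs_of_pos h8] at h7
  exact absurd h7 (not_le.2 h8)

noncomputable instance instMetricSpace : MetricSpace P.Pt where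
  dist := P.dst
  dist_self := P.dst_self
  dist_comm := P.dst_comm
  dist_triangle := P.dst_triangle
  eq_of_dist_eq_zero := fun h => P.eq_of_dst h

theorem dist_def (p q : P.Pt) : dist p q = P.dst p q := rfl

theorem lip_dist (p : P.Pt) : P.Lip 1 (fun q => dist p q) := by
  intro i a ha
  refine P.lipAt_sup (F := {h | ∃ f : P.Pt → ℝ, P.Lip 1 f ∧ h = fun q => f q - f p}) ?_ ?_ ?_
  · exact ⟨fun _ => 0, fun _ => 0, P.lip_const 0 zero_le_one, by simp⟩
  · intro q
    show IsLUB _ (P.dst p q)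
    rw [P.dst_comm]
    have h1 : (fun h : P.Pt → ℝ => h q) '' {h | ∃ f : P.Pt → ℝ, P.Lip 1 f ∧ h = fun q => f q - f p} =
        {r | ∃ f : P.Pt → ℝ, P.Lip 1 f ∧ r = f q - f p} := by
      ext r
      constructor
      · rintro ⟨h, ⟨f, hf, rfl⟩, rfl⟩
        exact ⟨f, hf, rfl⟩
      · rintro ⟨f, hf, rfl⟩
        exact ⟨_, ⟨f, hf, rfl⟩, rfl⟩
    rw [h1]
    exact isLUB_csSup ⟨0, fun _ => 0, P.lip_const 0 zero_le_one, by simp⟩ (P.bddAbove_dst q p)
  · intro ε hε
    filter_upwards [P.lip_uniform ha hε] with q hq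
    rintro h ⟨f, hf, rfl⟩
    have h2 := hq 1 f zero_le_one hf
    rw [mul_one] at h2
    have h3 : f (P.ψ i q.1) - f p - (f (P.ψ i q.2) - f p) = f (P.ψ i q.1) - f (P.ψ i q.2) := by ring
    show |f (P.ψ i q.1) - f p - (f (P.ψ i q.2) - f p)| ≤ _
    rw [h3]
    exact h2

end Patchwork

end Pool.Agent.W_MP_654ec6
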