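import Pool.Agent.W_MP_654ec6.A.Inverse
import Pool.Agent.W_MP_654ec6.B.Defs

/-!
# Task B1: basic properties of infinitesimally Lipschitz functions

`qf_cont`: near `a` the quadratic forms `qf (g i c)` and `qf (g i a)` are comparable up to a
factor `(1 + ε)²` (continuity of the coefficients and compactness of the unit sphere), and
comparable with the Euclidean norm.
`lipAt_chart`: let `θ` be the transition from `i` to `j` at `a` (`P.trans`), with local inverse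
`θ'`. For `y, y'` near `b = θ a`, `y = θ x, y' = θ x'`, so `ψ j y = ψ i x` and
`|f (ψ j y) - f (ψ j y')| ≤ (K + ε) |x - x'|_{g i a}`, where
`x - x' = θ' y - θ' y' = fderiv θ' b (y - y') + o(|y - y'|)` (strict differentiability of `θ'` at
`b`) and `|fderiv θ' b v|_{g i a} = |v|_{g j b}`.
`lipAt_eventually`: if `LipAt K f i a` holds then for every `ε > 0`, `LipAt (K + ε) f i c` holds
for all `c` near `a`.
-/

open scoped ContDiff Topology
open Filter

namespace Pool.Agent.W_MP_654ec6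

/-- The bilinear form of `qf`. -/
def lipBasicBil (a : Matrix (Fin 4) (Fin 4) ℝ) (v w : E4) : ℝ := ∑ i, ∑ j, a i j * v i * w j

theorem lipBasic_qf_add_smul {a : Matrix (Fin 4) (Fin 4) ℝ} (hs : ∀ i j, a i j = a j i)
    (v w : E4) (t : ℝ) :
    qf a (v + t • w) = qf a w * (t * t) + (2 * lipBasicBil a v w) * t + qf a v := by
  simp only [qf, lipBasicBil, Fin.sum_univ_four, PiLp.add_apply, PiLp.smul_apply, smul_eq_mul]
  rw [hs 1 0, hs 2 0, hs 3 0, hs 2 1, hs 3 1, hs 3 2]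
  ring

theorem lipBasic_qf_smul (a : Matrix (Fin 4) (Fin 4) ℝ) (c : ℝ) (v : E4) :
    qf a (c • v) = c ^ 2 * qf a v := by
  simp only [qf, Fin.sum_univ_four, PiLp.smul_apply, smul_eq_mul]
  ring

theorem lipBasic_qf_zero (a : Matrix (Fin 4) (Fin 4) ℝ) : qf a 0 = 0 := by
  simp [qf]

theorem lipBasic_qf_nonneg {a : Matrix (Fin 4) (Fin 4) ℝ}
    (hp : ∀ v : E4, v ≠ 0 → 0 < qf a v) (v : E4) : 0 ≤ qf a v := by
  by_cases h : v = 0
  · rw [h, lipBasic_qf_zero]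
  · exact (hp v h).le

theorem lipBasic_sqrt_smul (a : Matrix (Fin 4) (Fin 4) ℝ) (c : ℝ) (v : E4) :
    Real.sqrt (qf a (c • v)) = |c| * Real.sqrt (qf a v) := by
  rw [lipBasic_qf_smul, Real.sqrt_mul (sq_nonneg c), Real.sqrt_sq_eq_abs]

theorem lipBasic_continuous (a : Matrix (Fin 4) (Fin 4) ℝ) : Continuous fun v : E4 => qf a v := by
  unfold qf
  fun_prop

theorem lipBasic_norm {a : Matrix (Fin 4) (Fin 4) ℝ} (hp : ∀ v : E4, v ≠ 0 → 0 < qf a v) :
    ∃ c C : ℝ, 0 < c ∧ 0 < C ∧ ∀ v : E4, c * ‖v‖ ≤ Real.sqrt (qf a v) ∧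
      Real.sqrt (qf a v) ≤ C * ‖v‖ := by
  have hS : IsCompact (Metric.sphere (0 : E4) 1) := isCompact_sphere _ _
  have hne : (Metric.sphere (0 : E4) 1).Nonempty := NormedSpace.sphere_nonempty.2 zero_le_one
  have hc : Continuous fun v : E4 => Real.sqrt (qf a v) := (lipBasic_continuous a).sqrt
  obtain ⟨v₀, hv₀, hmin⟩ := hS.exists_isMinOn hne hc.continuousOn
  obtain ⟨v₁, hv₁, hmax⟩ := hS.exists_isMaxOn hne hc.continuousOn
  have hn : ∀ v ∈ Metric.sphere (0 : E4) 1, 0 < Real.sqrt (qf a v) := by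
    intro v hv
    refine Real.sqrt_pos.2 (hp v ?_)
    rintro rfl
    simp at hv
  refine ⟨Real.sqrt (qf a v₀), Real.sqrt (qf a v₁), hn v₀ hv₀, hn v₁ hv₁, fun v => ?_⟩
  by_cases h : v = 0
  · subst h
    simp [lipBasic_qf_zero]
  have hvn : 0 < ‖v‖ := norm_pos_iff.2 h
  have hu : ‖v‖⁻¹ • v ∈ Metric.sphere (0 : E4) 1 := by
    rw [mem_sphere_zero_iff_norm, norm_smul, norm_inv, norm_norm]
    exact inv_mul_cancel₀ hvn.ne'
  have e : Real.sqrt (qf a v) = ‖v‖ * Real.sqrt (qf a (‖v‖⁻¹ • v)) := by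
    rw [lipBasic_sqrt_smul, abs_of_pos (inv_pos.2 hvn), ← mul_assoc, mul_inv_cancel₀ hvn.ne',
      one_mul]
  have h1 : Real.sqrt (qf a v₀) ≤ Real.sqrt (qf a (‖v‖⁻¹ • v)) := hmin hu
  have h2 : Real.sqrt (qf a (‖v‖⁻¹ • v)) ≤ Real.sqrt (qf a v₁) := hmax hu
  rw [e]
  constructor <;> nlinarith

/-- Comparison of the quadratic forms at nearby points. -/
theorem qf_cont {g : Met} {V : Set E4} (hV : IsOpen V) (hg : GoodMet g V) {a : E4} (ha : a ∈ V)
    {ε : ℝ} (hε : 0 < ε) :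
    ∀ᶠ c in 𝓝 a, ∀ v : E4, Real.sqrt (qf (g c) v) ≤ (1 + ε) * Real.sqrt (qf (g a) v) ∧
      Real.sqrt (qf (g a) v) ≤ (1 + ε) * Real.sqrt (qf (g c) v) := by
  obtain ⟨c₀, C₀, hc₀, -, hcmp⟩ := lipBasic_norm (hg.pos a ha)
  set η : ℝ := ε / (1 + ε) with hη
  have hη0 : 0 < η := by positivity
  have hη1 : η < 1 := by
    rw [hη, div_lt_one (by positivity)]
    linarith
  have hηε : η ≤ ε := by
    rw [hη, div_le_iff₀ (by positivity)]
    nlinarith
  have hη2 : (1 + ε) * (1 - η) = 1 := by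
    rw [hη]
    field_simp
    ring
  set δ : ℝ := η * c₀ ^ 2 / 16 with hδ
  have hδ0 : 0 < δ := by positivity
  have hev : ∀ᶠ c in 𝓝 a, c ∈ V ∧ ∀ i j, |g c i j - g a i j| < δ := by
    have hVe : ∀ᶠ c in 𝓝 a, c ∈ V := hV.mem_nhds ha
    refine hVe.and ?_
    rw [eventually_all]
    intro i
    rw [eventually_all]
    intro j
    have hcont : ContinuousAt (fun x => g x i j) a :=
      ((hg.smooth i j).continuousOn).continuousAt (hV.mem_nhds ha)
    have := Metric.continuousAt_iff'.1 hcont δ hδ0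
    simpa only [Real.dist_eq] using this
  filter_upwards [hev] with c hc v
  obtain ⟨hcV, hc⟩ := hc
  have hdiff : |qf (g c) v - qf (g a) v| ≤ 16 * δ * ‖v‖ ^ 2 := by
    have e : qf (g c) v - qf (g a) v = ∑ i, ∑ j, (g c i j - g a i j) * v i * v j := by
      unfold qf
      rw [← Finset.sum_sub_distrib]
      refine Finset.sum_congr rfl fun i _ => ?_
      rw [← Finset.sum_sub_distrib]
      refine Finset.sum_congr rfl fun j _ => ?_
      ring
    rw [e]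
    refine (Finset.abs_sum_le_sum_abs _ _).trans ?_
    have hb : ∀ i, |∑ j, (g c i j - g a i j) * v i * v j| ≤ 4 * δ * ‖v‖ ^ 2 := by
      intro i
      refine (Finset.abs_sum_le_sum_abs _ _).trans ?_
      have hb2 : ∀ j ∈ (Finset.univ : Finset (Fin 4)),
          |(g c i j - g a i j) * v i * v j| ≤ δ * ‖v‖ ^ 2 := by
        intro j _
        rw [abs_mul, abs_mul, sq, ← mul_assoc]
        have h1 : |v i| ≤ ‖v‖ := by simpa using PiLp.norm_apply_le v i
        have h2 : |v j| ≤ ‖v‖ := by simpa using PiLp.norm_apply_le v j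
        have h3 := (hc i j).le
        gcongr
      refine (Finset.sum_le_sum hb2).trans (le_of_eq ?_)
      rw [Finset.sum_const, Finset.card_univ, Fintype.card_fin, nsmul_eq_mul]
      push_cast
      ring
    refine (Finset.sum_le_sum fun i _ => hb i).trans (le_of_eq ?_)
    rw [Finset.sum_const, Finset.card_univ, Fintype.card_fin, nsmul_eq_mul]
    push_cast
    ring
  have hq0 : 0 ≤ qf (g a) v := lipBasic_qf_nonneg (hg.pos a ha) v
  have hqc0 : 0 ≤ qf (g c) v := lipBasic_qf_nonneg (hg.pos c hcV) v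
  have hqa : c₀ ^ 2 * ‖v‖ ^ 2 ≤ qf (g a) v := by
    have h1 := (hcmp v).1
    have h2 : (c₀ * ‖v‖) ^ 2 ≤ Real.sqrt (qf (g a) v) ^ 2 :=
      pow_le_pow_left₀ (by positivity) h1 2
    rwa [Real.sq_sqrt hq0, mul_pow] at h2
  have hd2 : |qf (g c) v - qf (g a) v| ≤ η * qf (g a) v := by
    refine hdiff.trans ?_
    have : 16 * δ * ‖v‖ ^ 2 = η * (c₀ ^ 2 * ‖v‖ ^ 2) := by
      rw [hδ]
      ring
    rw [this]
    exact mul_le_mul_of_nonneg_left hqa hη0.le
  obtain ⟨hl, hu⟩ := abs_le.1 hd2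
  have hkey : ∀ s t : ℝ, 0 ≤ s → 0 ≤ t → s ≤ (1 + ε) * t →
      Real.sqrt s ≤ (1 + ε) * Real.sqrt t := by
    intro s t hs ht hst
    have h1 : Real.sqrt s ≤ Real.sqrt ((1 + ε) ^ 2 * t) := by
      refine Real.sqrt_le_sqrt (hst.trans ?_)
      have : 0 ≤ ε * t := by positivity
      nlinarith [mul_nonneg hε.le this]
    rwa [Real.sqrt_mul (by positivity), Real.sqrt_sq (by positivity)] at h1
  constructor
  · refine hkey _ _ hqc0 hq0 ?_
    nlinarith
  · refine hkey _ _ hq0 hqc0 ?_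
    have h1 : (1 - η) * qf (g a) v ≤ qf (g c) v := by linarith
    have h2 := mul_le_mul_of_nonneg_left h1 (by positivity : (0 : ℝ) ≤ 1 + ε)
    rw [← mul_assoc, hη2, one_mul] at h2
    exact h2

theorem qf_norm {g : Met} {V : Set E4} (hg : GoodMet g V) {a : E4} (ha : a ∈ V) :
    ∃ c C : ℝ, 0 < c ∧ 0 < C ∧ ∀ v : E4, c * ‖v‖ ≤ Real.sqrt (qf (g a) v) ∧
      Real.sqrt (qf (g a) v) ≤ C * ‖v‖ :=
  lipBasic_norm (hg.pos a ha)

/-- `v ↦ √(qf a v)` is a seminorm for a positive definite symmetric `a`. -/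
theorem sqrt_qf_add {a : Matrix (Fin 4) (Fin 4) ℝ} (hs : ∀ i j, a i j = a j i)
    (hp : ∀ v : E4, v ≠ 0 → 0 < qf a v) (v w : E4) :
    Real.sqrt (qf a (v + w)) ≤ Real.sqrt (qf a v) + Real.sqrt (qf a w) := by
  have hv := lipBasic_qf_nonneg hp v
  have hw := lipBasic_qf_nonneg hp w
  have h1 : ∀ t : ℝ, 0 ≤ qf a w * (t * t) + (2 * lipBasicBil a v w) * t + qf a v := by
    intro t
    rw [← lipBasic_qf_add_smul hs]
    exact lipBasic_qf_nonneg hp _
  have h2 := discrim_le_zero h1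
  unfold discrim at h2
  have h3 : lipBasicBil a v w ≤ Real.sqrt (qf a v) * Real.sqrt (qf a w) := by
    rw [← Real.sqrt_mul hv]
    refine Real.le_sqrt_of_sq_le ?_
    nlinarith
  have h4 : qf a (v + w) = qf a w + 2 * lipBasicBil a v w + qf a v := by
    have := lipBasic_qf_add_smul hs v w 1
    rw [one_smul] at this
    rw [this]
    ring
  rw [h4]
  refine Real.sqrt_le_iff.2 ⟨by positivity, ?_⟩
  have h5 := Real.sq_sqrt hv
  have h6 := Real.sq_sqrt hw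
  nlinarith

theorem sqrt_qf_smul (a : Matrix (Fin 4) (Fin 4) ℝ) (c : ℝ) (v : E4) :
    Real.sqrt (qf a (c • v)) = |c| * Real.sqrt (qf a v) :=
  lipBasic_sqrt_smul a c v

namespace Patchwork

variable (P : Patchwork)

theorem lipBasic_nonneg {K : ℝ} {f : P.Pt → ℝ} {i : P.ι} {a : E4} (ha : a ∈ P.V i)
    (hf : P.LipAt K f i a) : 0 ≤ K := by
  by_contra hK
  push Not at hK
  have h1 := hf (-K / 2) (by linarith)
  have hcont : Tendsto (fun t : ℝ => (a + t • bv 0, a)) (𝓝[≠] 0) (𝓝 (a, a)) := by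
    have hc : Continuous fun t : ℝ => (a + t • bv 0, a) := by fun_prop
    have := hc.tendsto 0
    simp only [zero_smul, add_zero] at this
    exact this.mono_left nhdsWithin_le_nhds
  have h2 := hcont.eventually h1
  obtain ⟨t, ht, ht0⟩ := (h2.and self_mem_nhdsWithin).exists
  have ht0' : t ≠ 0 := ht0
  have e : a + t • bv 0 - a = t • bv 0 := by abel
  simp only [e] at ht
  rw [lipBasic_sqrt_smul] at ht
  have hb : (bv 0 : E4) ≠ 0 := by
    intro h
    have := congrArg (fun v : E4 => v 0) h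
    simp [bv] at this
  have h3 : 0 < Real.sqrt (qf (P.g i a) (bv 0)) := Real.sqrt_pos.2 ((P.good i).pos a ha _ hb)
  have h4 : 0 < |t| * Real.sqrt (qf (P.g i a) (bv 0)) := mul_pos (abs_pos.2 ht0') h3
  have h5 := abs_nonneg (f (P.ψ i (a + t • bv 0)) - f (P.ψ i a))
  nlinarith

theorem lipAt_chart {K : ℝ} (hK : 0 ≤ K) {f : P.Pt → ℝ} {i j : P.ι} {a b : E4} (ha : a ∈ P.V i)
    (hb : b ∈ P.V j) (hab : P.ψ i a = P.ψ j b) (h : P.LipAt K f i a) : P.LipAt K f j b := by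
  obtain ⟨θ, hθa, hθ, hθψ⟩ := P.trans i j a ha b hb hab
  obtain ⟨θ', h1, h2, -, h4⟩ := isoAt_inverse (P.isOpen_V i) (P.good i) (P.isOpen_V j) (P.good j)
    ha (hθa ▸ hb) hθ
  rw [hθa] at h1 h2 h4
  intro ε hε
  obtain ⟨_, C, _, hC, hCb⟩ := qf_norm (P.good i) ha
  obtain ⟨c, _, hc, _, hcb⟩ := qf_norm (P.good j) hb
  have hKε : 0 < K + ε / 2 := by linarith
  set δ : ℝ := c * (ε / 2) / (C * (K + ε / 2)) with hδ
  have hδ0 : 0 < δ := by positivity
  have hcont : ContinuousAt θ' b := h2.1.continuousAt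
  have htend : Tendsto θ' (𝓝 b) (𝓝 a) := by
    have := hcont.tendsto
    rwa [h1] at this
  have hstrict : HasStrictFDerivAt θ' (fderiv ℝ θ' b) b :=
    h2.1.hasStrictFDerivAt (by simp)
  have hlo := (hasStrictFDerivAt_iff_isLittleO.1 hstrict).def hδ0
  have hiso : ∀ v, qf (P.g i a) (fderiv ℝ θ' b v) = qf (P.g j b) v := by
    intro v
    have := h2.2.self_of_nhds v
    rwa [h1] at this
  have hψ : ∀ᶠ y in 𝓝 b, P.ψ j y = P.ψ i (θ' y) := by
    filter_upwards [h4, htend.eventually hθψ] with y hy1 hy2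
    rw [← hy2, hy1]
  have hψ2 : ∀ᶠ q in 𝓝 (b, b), P.ψ j q.1 = P.ψ i (θ' q.1) ∧ P.ψ j q.2 = P.ψ i (θ' q.2) := by
    rw [nhds_prod_eq]
    exact (hψ.prod_inl _).and (hψ.prod_inr _)
  have htend2 : Tendsto (fun q : E4 × E4 => (θ' q.1, θ' q.2)) (𝓝 (b, b)) (𝓝 (a, a)) := by
    rw [nhds_prod_eq, nhds_prod_eq]
    exact htend.prodMap htend
  filter_upwards [hψ2, htend2.eventually (h (ε / 2) (by positivity)), hlo] with q hq1 hq2 hq3
  rw [hq1.1, hq1.2]
  refine hq2.trans ?_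
  set v : E4 := q.1 - q.2 with hv
  set r : E4 := θ' q.1 - θ' q.2 - fderiv ℝ θ' b (q.1 - q.2) with hr
  have e1 : θ' q.1 - θ' q.2 = fderiv ℝ θ' b v + r := by
    rw [hr, hv]
    abel
  have h5 : Real.sqrt (qf (P.g i a) (θ' q.1 - θ' q.2)) ≤
      Real.sqrt (qf (P.g j b) v) + C * ‖r‖ := by
    rw [e1]
    refine (sqrt_qf_add ((P.good i).symm a ha) ((P.good i).pos a ha) _ _).trans ?_
    rw [hiso]
    exact add_le_add le_rfl (hCb r).2
  have h6 : ‖r‖ ≤ δ * ‖v‖ := hq3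
  have h7 := (hcb v).1
  have h8 : C * ‖r‖ * (K + ε / 2) ≤ ε / 2 * Real.sqrt (qf (P.g j b) v) := by
    calc C * ‖r‖ * (K + ε / 2) ≤ C * (δ * ‖v‖) * (K + ε / 2) := by gcongr
      _ = ε / 2 * (c * ‖v‖) := by
        rw [hδ]
        field_simp
      _ ≤ ε / 2 * Real.sqrt (qf (P.g j b) v) := by gcongr
  calc (K + ε / 2) * Real.sqrt (qf (P.g i a) (θ' q.1 - θ' q.2))
      ≤ (K + ε / 2) * (Real.sqrt (qf (P.g j b) v) + C * ‖r‖) := by gcongr
    _ ≤ (K + ε) * Real.sqrt (qf (P.g j b) v) := by nlinarith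

theorem lip_of_exists {K : ℝ} (hK : 0 ≤ K) {f : P.Pt → ℝ}
    (h : ∀ p : P.Pt, ∃ i, ∃ a ∈ P.V i, P.ψ i a = p ∧ P.LipAt K f i a) : P.Lip K f := by
  intro j b hb
  obtain ⟨i, a, ha, hab, hL⟩ := h (P.ψ j b)
  exact P.lipAt_chart hK ha hb hab hL

theorem lipAt_mono {K K' : ℝ} (h : K ≤ K') {f : P.Pt → ℝ} {i : P.ι} {a : E4}
    (hf : P.LipAt K f i a) : P.LipAt K' f i a := by
  intro ε hε
  filter_upwards [hf ε hε] with q hq
  exact hq.trans (mul_le_mul_of_nonneg_right (by linarith) (Real.sqrt_nonneg _))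

theorem lipBasic_prod {p : E4 → Prop} {a : E4} (h : ∀ᶠ x in 𝓝 a, p x) :
    ∀ᶠ q in 𝓝 (a, a), p q.1 ∧ p q.2 := by
  rw [nhds_prod_eq]
  exact (h.prod_inl _).and (h.prod_inr _)

theorem lipAt_congr {K : ℝ} {f f' : P.Pt → ℝ} {i : P.ι} {a : E4}
    (hf : P.LipAt K f i a) (h : ∀ᶠ x in 𝓝 a, f (P.ψ i x) = f' (P.ψ i x)) :
    P.LipAt K f' i a := by
  intro ε hε
  filter_upwards [hf ε hε, lipBasic_prod h] with q hq hq2
  rw [← hq2.1, ← hq2.2]
  exact hq

theorem lipAt_eventually {K : ℝ} {f : P.Pt → ℝ} {i : P.ι} {a : E4} (ha : a ∈ P.V i)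
    (hf : P.LipAt K f i a) {ε : ℝ} (hε : 0 < ε) : ∀ᶠ c in 𝓝 a, P.LipAt (K + ε) f i c := by
  have hK := P.lipBasic_nonneg ha hf
  have hKε : 0 < K + ε / 2 := by linarith
  set η : ℝ := ε / 2 / (K + ε / 2) with hη
  have hη0 : 0 < η := by positivity
  have hη1 : η * (K + ε / 2) = ε / 2 := by
    rw [hη]
    field_simp
  have h1 : ∀ᶠ c in 𝓝 a, ∀ᶠ q in 𝓝 (c, c), |f (P.ψ i q.1) - f (P.ψ i q.2)| ≤
      (K + ε / 2) * Real.sqrt (qf (P.g i a) (q.1 - q.2)) := by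
    have h2 := (hf (ε / 2) (by positivity)).eventually_nhds
    have h3 : Tendsto (fun c : E4 => (c, c)) (𝓝 a) (𝓝 (a, a)) :=
      (Continuous.prodMk continuous_id continuous_id).tendsto a
    exact h3.eventually h2
  filter_upwards [h1, qf_cont (P.isOpen_V i) (P.good i) ha hη0] with c hc hcq ε' hε'
  filter_upwards [hc] with q hq
  refine hq.trans ?_
  have h4 := (hcq (q.1 - q.2)).2
  have h5 := Real.sqrt_nonneg (qf (P.g i c) (q.1 - q.2))
  calc (K + ε / 2) * Real.sqrt (qf (P.g i a) (q.1 - q.2))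
      ≤ (K + ε / 2) * ((1 + η) * Real.sqrt (qf (P.g i c) (q.1 - q.2))) := by gcongr
    _ = (K + ε) * Real.sqrt (qf (P.g i c) (q.1 - q.2)) := by
        linear_combination Real.sqrt (qf (P.g i c) (q.1 - q.2)) * hη1
    _ ≤ (K + ε + ε') * Real.sqrt (qf (P.g i c) (q.1 - q.2)) :=
        mul_le_mul_of_nonneg_right (by linarith) (Real.sqrt_nonneg _)

theorem lip_const (c : ℝ) {K : ℝ} (hK : 0 ≤ K) : P.Lip K (fun _ => c) := by
  intro i a _ ε hε
  refine Filter.Eventually.of_forall fun q => ?_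
  rw [sub_self, abs_zero]
  positivity

theorem lip_neg {K : ℝ} {f : P.Pt → ℝ} (hf : P.Lip K f) : P.Lip K (fun p => -f p) := by
  intro i a ha ε hε
  filter_upwards [hf i a ha ε hε] with q hq
  rw [neg_sub_neg, abs_sub_comm]
  exact hq

theorem lip_add_const {K : ℝ} {f : P.Pt → ℝ} (hf : P.Lip K f) (c : ℝ) :
    P.Lip K (fun p => f p + c) := by
  intro i a ha ε hε
  filter_upwards [hf i a ha ε hε] with q hq
  rw [add_sub_add_right_eq_sub]
  exact hq

theorem lip_smul {K : ℝ} {f : P.Pt → ℝ} (hf : P.Lip K f) {c : ℝ} (hc : 0 ≤ c) :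
    P.Lip (c * K) (fun p => c * f p) := by
  intro i a ha ε hε
  filter_upwards [hf i a ha (ε / (c + 1)) (by positivity)] with q hq
  rw [← mul_sub, abs_mul, abs_of_nonneg hc]
  refine (mul_le_mul_of_nonneg_left hq hc).trans ?_
  rw [← mul_assoc]
  refine mul_le_mul_of_nonneg_right ?_ (Real.sqrt_nonneg _)
  have h1 : c * (ε / (c + 1)) ≤ ε := by
    rw [mul_div_assoc', div_le_iff₀ (by positivity)]
    nlinarith
  linarith

theorem lip_max {K : ℝ} {f f' : P.Pt → ℝ} (hf : P.Lip K f) (hf' : P.Lip K f') :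
    P.Lip K (fun p => max (f p) (f' p)) := by
  intro i a ha ε hε
  filter_upwards [hf i a ha ε hε, hf' i a ha ε hε] with q hq hq'
  exact (abs_max_sub_max_le_max _ _ _ _).trans (max_le hq hq')

theorem lip_min {K : ℝ} {f f' : P.Pt → ℝ} (hf : P.Lip K f) (hf' : P.Lip K f') :
    P.Lip K (fun p => min (f p) (f' p)) := by
  intro i a ha ε hε
  filter_upwards [hf i a ha ε hε, hf' i a ha ε hε] with q hq hq'
  exact (abs_min_sub_min_le_max _ _ _ _).trans (max_le hq hq')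

/-- A supremum of `K`-Lipschitz functions (infinitesimally, with a uniform estimate near each
point) is `K`-Lipschitz. -/
theorem lipAt_sup {K : ℝ} {F : Set (P.Pt → ℝ)} {f : P.Pt → ℝ} {i : P.ι} {a : E4}
    (hF : F.Nonempty) (hf : ∀ p, IsLUB ((fun h : P.Pt → ℝ => h p) '' F) (f p))
    (h : ∀ ε > (0 : ℝ), ∀ᶠ q in 𝓝 (a, a), ∀ h ∈ F, |h (P.ψ i q.1) - h (P.ψ i q.2)| ≤
      (K + ε) * Real.sqrt (qf (P.g i a) (q.1 - q.2))) : P.LipAt K f i a := by
  intro ε hε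
  filter_upwards [h ε hε] with q hq
  rw [abs_le]
  have h1 : f (P.ψ i q.1) ≤ f (P.ψ i q.2) +
      (K + ε) * Real.sqrt (qf (P.g i a) (q.1 - q.2)) := by
    refine (hf _).2 ?_
    rintro _ ⟨u, hu, rfl⟩
    have h2 := (abs_le.1 (hq u hu)).2
    have h3 : u (P.ψ i q.2) ≤ f (P.ψ i q.2) := (hf _).1 ⟨u, hu, rfl⟩
    dsimp only
    linarith
  have h1' : f (P.ψ i q.2) ≤ f (P.ψ i q.1) +
      (K + ε) * Real.sqrt (qf (P.g i a) (q.1 - q.2)) := by
    refine (hf _).2 ?_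
    rintro _ ⟨u, hu, rfl⟩
    have h2 := (abs_le.1 (hq u hu)).1
    have h3 : u (P.ψ i q.1) ≤ f (P.ψ i q.1) := (hf _).1 ⟨u, hu, rfl⟩
    dsimp only
    linarith
  constructor <;> linarith

end Patchwork

end Pool.Agent.W_MP_654ec6
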