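import Pool.Agent.W_MP_654ec6.B.Topo

/-!
# Task B6: infinitesimally Lipschitz functions are Lipschitz

`lip_iff`: if `Lip K f`, `K > 0`, then `f / K` is `1`-Lipschitz, use `le_dst`; for `K = 0` use all
`K' > 0`. Conversely `|f p - f q| ≤ K dist p q` and `dist_upper` give `LipAt K f`.
`locLipProp`: the metric version of the infinitesimal condition implies `LipAt` by `dist_upper`
and `map_nhds`.
-/

open scoped ContDiff Topology
open Filter

namespace Pool.Agent.W_MP_654ec6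

namespace Patchwork

variable (P : Patchwork)

theorem lipIff_le_aux {K : ℝ} (hK : 0 < K) {f : P.Pt → ℝ} (hf : P.Lip K f) (p q : P.Pt) :
    |f p - f q| ≤ K * dist p q := by
  have h1 : P.Lip (K⁻¹ * K) (fun p => K⁻¹ * f p) := P.lip_smul hf (inv_pos.mpr hK).le
  rw [inv_mul_cancel₀ hK.ne'] at h1
  have h2 := P.le_dst h1 p q
  rw [← P.dist_def, ← mul_sub, abs_mul, abs_of_pos (inv_pos.mpr hK), inv_mul_le_iff₀ hK] at h2
  exact h2

theorem lip_le {K : ℝ} (hK : 0 ≤ K) {f : P.Pt → ℝ} (hf : P.Lip K f) (p q : P.Pt) :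
    |f p - f q| ≤ K * dist p q := by
  apply le_of_forall_pos_le_add
  intro δ hδ
  have hd : 0 ≤ dist p q := dist_nonneg
  have hK' : 0 < δ / (dist p q + 1) := by positivity
  have h1 : P.Lip (K + δ / (dist p q + 1)) f := fun i a ha =>
    P.lipAt_mono (by linarith) (hf i a ha)
  have h2 := P.lipIff_le_aux (by linarith) h1 p q
  refine h2.trans ?_
  rw [add_mul]
  have h3 : δ / (dist p q + 1) * dist p q ≤ δ := by
    rw [div_mul_eq_mul_div, div_le_iff₀ (by linarith)]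
    nlinarith
  linarith

/-- The metric version of the infinitesimal condition implies `LipAt`. -/
theorem lipIff_lipAt {K : ℝ} (hK : 0 ≤ K) {f : P.Pt → ℝ} {i : P.ι} {a : E4} (ha : a ∈ P.V i)
    (h : ∀ ε > (0 : ℝ), ∀ᶠ q in 𝓝 (P.ψ i a, P.ψ i a),
      |f q.1 - f q.2| ≤ (K + ε) * dist q.1 q.2) : P.LipAt K f i a := by
  intro ε hε
  set δ : ℝ := min 1 (ε / (K + 2)) with hδdef
  have hK2 : 0 < K + 2 := by linarith
  have hδ : 0 < δ := lt_min one_pos (div_pos hε hK2)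
  have hδ1 : δ ≤ 1 := min_le_left _ _
  have hδ2 : δ * (K + 2) ≤ ε := by
    have : δ ≤ ε / (K + 2) := min_le_right _ _
    exact (le_div_iff₀ hK2).mp this
  have ht : Tendsto (fun q : E4 × E4 => (P.ψ i q.1, P.ψ i q.2)) (𝓝 (a, a))
      (𝓝 (P.ψ i a, P.ψ i a)) := by
    have hc := P.topo_continuousAt ha
    have h1 : Tendsto (fun q : E4 × E4 => P.ψ i q.1) (𝓝 (a, a)) (𝓝 (P.ψ i a)) :=
      Tendsto.comp hc (continuous_fst.tendsto (a, a))
    have h2 : Tendsto (fun q : E4 × E4 => P.ψ i q.2) (𝓝 (a, a)) (𝓝 (P.ψ i a)) :=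
      Tendsto.comp hc (continuous_snd.tendsto (a, a))
    exact h1.prodMk_nhds h2
  filter_upwards [ht.eventually (h δ hδ), P.dist_upper ha hδ] with q h1 h2
  have hs : 0 ≤ Real.sqrt (qf (P.g i a) (q.1 - q.2)) := Real.sqrt_nonneg _
  have h3 : (K + δ) * dist (P.ψ i q.1) (P.ψ i q.2) ≤
      (K + δ) * ((1 + δ) * Real.sqrt (qf (P.g i a) (q.1 - q.2))) :=
    mul_le_mul_of_nonneg_left h2 (by linarith)
  have h4 : (K + δ) * (1 + δ) ≤ K + ε := by nlinarith
  have h5 := mul_le_mul_of_nonneg_right h4 hs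
  calc _ ≤ _ := h1
    _ ≤ _ := h3
    _ = (K + δ) * (1 + δ) * Real.sqrt (qf (P.g i a) (q.1 - q.2)) := by ring
    _ ≤ _ := h5

theorem lip_iff {K : ℝ} (hK : 0 ≤ K) {f : P.Pt → ℝ} :
    P.Lip K f ↔ ∀ p q : P.Pt, |f p - f q| ≤ K * dist p q := by
  constructor
  · intro h
    exact P.lip_le hK h
  · intro h i a ha
    apply P.lipIff_lipAt hK ha
    intro ε hε
    refine Eventually.of_forall fun q => (h q.1 q.2).trans ?_
    exact mul_le_mul_of_nonneg_right (by linarith) dist_nonneg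

theorem locLipProp : LocLipProp P.Pt := by
  intro f K hK h
  apply P.lip_le hK
  intro i a ha
  exact P.lipIff_lipAt hK ha (h (P.ψ i a))

/-- Bound of a distance along a path in a patch. -/
theorem dist_path {L : ℝ} (hL : 0 ≤ L) {i : P.ι} {γ γ' : ℝ → E4}
    (hV : ∀ t ∈ Set.Icc (0 : ℝ) 1, γ t ∈ P.V i)
    (hd : ∀ t ∈ Set.Icc (0 : ℝ) 1, HasDerivWithinAt γ (γ' t) (Set.Icc 0 1) t)
    (hl : ∀ t ∈ Set.Icc (0 : ℝ) 1, Real.sqrt (qf (P.g i (γ t)) (γ' t)) ≤ L) :
    dist (P.ψ i (γ 0)) (P.ψ i (γ 1)) ≤ L := by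
  rw [P.dist_def]
  apply P.dst_le
  intro f hf
  have h := P.lip_path zero_le_one hL hf hV hd hl
  rw [one_mul, abs_sub_comm] at h
  exact (le_abs_self _).trans h

theorem dist_segment {L : ℝ} (hL : 0 ≤ L) {i : P.ι} {a b : E4} (hV : segment ℝ a b ⊆ P.V i)
    (hl : ∀ c ∈ segment ℝ a b, Real.sqrt (qf (P.g i c) (b - a)) ≤ L) :
    dist (P.ψ i a) (P.ψ i b) ≤ L := by
  rw [P.dist_def]
  apply P.dst_le
  intro f hf
  have h := P.lip_segment zero_le_one hL hf hV hl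
  rw [one_mul] at h
  exact (le_abs_self _).trans h

end Patchwork

end Pool.Agent.W_MP_654ec6
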