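import Pool.Agent.W_MP_654ec6.B.Topo

/-!
# Task B10: the smooth manifold structure of a patchwork

`IsChart e`: the partial homeomorphism `e` is a local inverse of some `ψ i`.
`exists_isChart`: `exists_chart`. `transition_isoAt`: near `x`, `e' ∘ e.symm` coincides with the
transition `θ` of `P.trans` (both are local inverses of `ψ j` composed with `ψ i`; `θ` is
continuous and `ψ j` is injective near `θ x`).
`instIsManifold`: `isManifold_of_contDiffOn`: the transition maps are smooth at every point.
-/

open scoped Manifold ContDiff Topology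
open Filter

namespace Pool.Agent.W_MP_654ec6

namespace Patchwork

variable (P : Patchwork)

/-- `e` is a local inverse of the parametrisation `ψ i`. -/
def IsChartAt (i : P.ι) (e : OpenPartialHomeomorph P.Pt E4) : Prop :=
  e.target ⊆ P.V i ∧ Set.EqOn e.symm (P.ψ i) e.target

theorem exists_isChartAt (p : P.Pt) : ∃ e i, P.IsChartAt i e ∧ p ∈ e.source := by
  obtain ⟨i, a, ha, rfl⟩ := P.cover p
  obtain ⟨r, e, hr, hball, ht, heq, hs, he⟩ := P.exists_chart ha
  exact ⟨e, i, ⟨ht ▸ hball, ht ▸ heq⟩, hs⟩

/-- The chosen chart at `p`. -/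
noncomputable def chartOf (p : P.Pt) : OpenPartialHomeomorph P.Pt E4 :=
  Classical.choose (P.exists_isChartAt p)

/-- The index of the chosen chart at `p`. -/
noncomputable def idx (p : P.Pt) : P.ι := Classical.choose (Classical.choose_spec
  (P.exists_isChartAt p))

theorem chartOf_isChart (p : P.Pt) : P.IsChartAt (P.idx p) (P.chartOf p) :=
  (Classical.choose_spec (Classical.choose_spec (P.exists_isChartAt p))).1

theorem mem_chartOf (p : P.Pt) : p ∈ (P.chartOf p).source :=
  (Classical.choose_spec (Classical.choose_spec (P.exists_isChartAt p))).2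

noncomputable instance instChartedSpace : ChartedSpace E4 P.Pt where
  atlas := {e | ∃ i, P.IsChartAt i e}
  chartAt := P.chartOf
  mem_chart_source := P.mem_chartOf
  chart_mem_atlas := fun p => ⟨P.idx p, P.chartOf_isChart p⟩

/-- The transitions between charts are isometries of the metric coefficients. -/
theorem transition_isoAt {i j : P.ι} {e e' : OpenPartialHomeomorph P.Pt E4}
    (he : P.IsChartAt i e) (he' : P.IsChartAt j e') {x : E4} (hx : x ∈ e.target)
    (hx' : e.symm x ∈ e'.source) : IsoAt (P.g i) (P.g j) (fun y => e' (e.symm y)) x := by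
  have hb : e' (e.symm x) ∈ e'.target := e'.map_source hx'
  have hψ : P.ψ i x = P.ψ j (e' (e.symm x)) := by
    rw [← he.2 hx, ← he'.2 hb, e'.left_inv hx']
  obtain ⟨θ, hθ, hiso, hev⟩ := P.trans i j x (he.1 hx) _ (he'.1 hb) hψ
  refine isoAt_congr hiso EventuallyEq.rfl ?_ EventuallyEq.rfl
  have h1 : ∀ᶠ y in 𝓝 x, y ∈ e.target := e.open_target.mem_nhds hx
  have h2 : ∀ᶠ y in 𝓝 x, e.symm y ∈ e'.source :=
    (e.continuousAt_symm hx).preimage_mem_nhds (e'.open_source.mem_nhds hx')
  have h3 : ∀ᶠ y in 𝓝 x, θ y ∈ e'.target := by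
    apply hiso.1.continuousAt.preimage_mem_nhds
    rw [hθ]
    exact e'.open_target.mem_nhds hb
  filter_upwards [h1, h2, h3, hev] with y hy1 hy2 hy3 hy4
  rw [he.2 hy1, ← hy4, ← he'.2 hy3, e'.right_inv hy3]

instance instIsManifold : IsManifold 𝓘(ℝ, E4) ∞ P.Pt := by
  apply isManifold_of_contDiffOn
  rintro e e' ⟨i, he⟩ ⟨j, he'⟩
  intro x hx
  simp only [modelWithCornersSelf_coe, modelWithCornersSelf_coe_symm, Function.id_comp,
    Function.comp_id, Set.preimage_id, Set.range_id, Set.inter_univ,
    OpenPartialHomeomorph.trans_source, OpenPartialHomeomorph.symm_source] at hx ⊢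
  exact (P.transition_isoAt he he' hx.1 hx.2).1.contDiffWithinAt

end Patchwork

end Pool.Agent.W_MP_654ec6
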