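import Pool.Agent.W_MP_654ec6.B.LipBasic

/-!
# Task B2: Lipschitz bounds along paths

`real_lip`: if `h : ℝ → ℝ` satisfies, at every `t ∈ [0,1]` and for every `ε > 0`,
`|h s - h t| ≤ (L + ε) |s - t|` for all `s ∈ [0,1]` near `t`, then `|h 1 - h 0| ≤ L`
(for `ε > 0` let `T` be the supremum of the `t` such that `|h s - h 0| ≤ (L + ε) s` on `[0, t]`;
or use `image_norm_le_of_liminf_right_slope_norm_lt_deriv_boundary`-like lemmas of Mathlib).
`lip_path`: apply it to `h t = f (ψ i (γ t))` divided by `K`: by `LipAt` at `γ t` and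
`γ s - γ t = (s - t) γ' t + o(s - t)`,
`|h s - h t| ≤ (K + ε) √(qf (g i (γ t)) (γ s - γ t)) ≤ (K + ε)(L |s - t| + o(|s-t|))`.
`lip_segment`: the special case of a segment.
`lip_uniform`: near a point `a`, ALL `K`-Lipschitz functions satisfy the infinitesimal estimate
uniformly: take a ball `B` around `a` in which the norms `√qf (g i c)` are within a factor
`1 + ε` of the one at `a` and use `lip_segment` on the segments inside `B`.
-/

open scoped ContDiff Topology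
open Filter

namespace Pool.Agent.W_MP_654ec6

theorem path_real_cont {h : ℝ → ℝ} {L : ℝ}
    (hh : ∀ t ∈ Set.Icc (0 : ℝ) 1, ∀ ε > (0 : ℝ), ∀ᶠ s in 𝓝[Set.Icc (0 : ℝ) 1] t,
      |h s - h t| ≤ (L + ε) * |s - t|) : ContinuousOn h (Set.Icc 0 1) := by
  intro t ht
  rw [ContinuousWithinAt, tendsto_iff_dist_tendsto_zero]
  have h1 := hh t ht 1 one_pos
  have h2 : Tendsto (fun s => (L + 1) * |s - t|) (𝓝[Set.Icc (0 : ℝ) 1] t) (𝓝 0) := by
    have h3 : Tendsto (fun s => (L + 1) * |s - t|) (𝓝 t) (𝓝 ((L + 1) * |t - t|)) :=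
      (continuous_const.mul (continuous_id.sub continuous_const).abs).tendsto t
    simp only [sub_self, abs_zero, mul_zero] at h3
    exact h3.mono_left nhdsWithin_le_nhds
  refine squeeze_zero' (Eventually.of_forall fun s => dist_nonneg) ?_ h2
  filter_upwards [h1] with s hs
  rw [Real.dist_eq]
  exact hs

theorem path_real_half {h : ℝ → ℝ} {L : ℝ}
    (hh : ∀ t ∈ Set.Icc (0 : ℝ) 1, ∀ ε > (0 : ℝ), ∀ᶠ s in 𝓝[Set.Icc (0 : ℝ) 1] t,
      |h s - h t| ≤ (L + ε) * |s - t|) : h 1 ≤ h 0 + L := by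
  have key := image_le_of_liminf_slope_right_le_deriv_boundary (f := h) (a := 0) (b := 1)
    (path_real_cont hh) (B := fun t => h 0 + L * t) (B' := fun _ => L) (by simp)
    (by fun_prop)
    (fun x _ => by
      simpa using ((hasDerivAt_id x).const_mul L |>.const_add (h 0)).hasDerivWithinAt
        (s := Set.Ici x))
    (fun x hx r hr => by
      have h1 := hh x ⟨hx.1, hx.2.le⟩ ((r - L) / 2) (by linarith)
      have h2 : ∀ᶠ z in 𝓝[>] x, z ∈ Set.Icc (0 : ℝ) 1 := by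
        have h3 : Set.Ioo x 1 ∈ 𝓝[>] x := Ioo_mem_nhdsGT hx.2
        filter_upwards [h3] with z hz
        exact ⟨hx.1.trans hz.1.le, hz.2.le⟩
      have h3 : ∀ᶠ z in 𝓝[>] x, |h z - h x| ≤ (L + (r - L) / 2) * |z - x| := by
        rw [eventually_nhdsWithin_iff] at h1
        have h4 : ∀ᶠ z in 𝓝[>] x, z ∈ Set.Icc (0 : ℝ) 1 →
            |h z - h x| ≤ (L + (r - L) / 2) * |z - x| := nhdsWithin_le_nhds h1
        filter_upwards [h2, h4] with z hz1 hz2
        exact hz2 hz1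
      refine Eventually.frequently ?_
      filter_upwards [h3, self_mem_nhdsWithin] with z hz hzx
      have hpos : 0 < z - x := sub_pos.mpr hzx
      rw [slope_def_field, div_lt_iff₀ hpos]
      rw [abs_of_pos hpos] at hz
      have h5 := le_of_abs_le hz
      nlinarith)
  have := key (x := 1) ⟨zero_le_one, le_refl 1⟩
  simpa using this

theorem real_lip {h : ℝ → ℝ} {L : ℝ} (hL : 0 ≤ L)
    (hh : ∀ t ∈ Set.Icc (0 : ℝ) 1, ∀ ε > (0 : ℝ), ∀ᶠ s in 𝓝[Set.Icc (0 : ℝ) 1] t,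
      |h s - h t| ≤ (L + ε) * |s - t|) : |h 1 - h 0| ≤ L := by
  have h1 := path_real_half hh
  have h2 := path_real_half (h := fun t => -h t) (L := L) (fun t ht ε hε => by
    filter_upwards [hh t ht ε hε] with s hs
    have : |(-h s) - (-h t)| = |h s - h t| := by
      rw [← abs_neg]; congr 1; ring
    rw [this]; exact hs)
  rw [abs_le]
  constructor <;> linarith

theorem path_qf_sub (a : Matrix (Fin 4) (Fin 4) ℝ) (v w : E4) :
    Real.sqrt (qf a (v - w)) = Real.sqrt (qf a (w - v)) := by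
  have h1 := sqrt_qf_smul a (-1) (w - v)
  rw [neg_one_smul, neg_sub] at h1
  rw [h1]; simp

namespace Patchwork

variable (P : Patchwork)

theorem lip_path {K L : ℝ} (hK : 0 ≤ K) (hL : 0 ≤ L) {f : P.Pt → ℝ} (hf : P.Lip K f) {i : P.ι}
    {γ γ' : ℝ → E4} (hV : ∀ t ∈ Set.Icc (0 : ℝ) 1, γ t ∈ P.V i)
    (hd : ∀ t ∈ Set.Icc (0 : ℝ) 1, HasDerivWithinAt γ (γ' t) (Set.Icc 0 1) t)
    (hl : ∀ t ∈ Set.Icc (0 : ℝ) 1, Real.sqrt (qf (P.g i (γ t)) (γ' t)) ≤ L) :
    |f (P.ψ i (γ 1)) - f (P.ψ i (γ 0))| ≤ K * L := by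
  refine real_lip (h := fun t => f (P.ψ i (γ t))) (mul_nonneg hK hL) ?_
  intro t ht ε hε
  obtain ⟨c, C, hc, hC, hcC⟩ := qf_norm (P.good i) (hV t ht)
  have hη : 0 < min 1 (ε / (2 * (K + 1))) := lt_min one_pos (by positivity)
  set η : ℝ := min 1 (ε / (2 * (K + 1))) with hηdef
  have hη1 : η ≤ 1 := min_le_left _ _
  have hη2 : η ≤ ε / (2 * (K + 1)) := min_le_right _ _
  have hε1 : 0 < ε / (2 * (L + 1)) := by positivity
  set ε1 : ℝ := ε / (2 * (L + 1)) with hε1def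
  have hlip := hf i (γ t) (hV t ht) ε1 hε1
  have hcont : Tendsto γ (𝓝[Set.Icc (0 : ℝ) 1] t) (𝓝 (γ t)) := (hd t ht).continuousWithinAt
  have hpair : Tendsto (fun s => (γ s, γ t)) (𝓝[Set.Icc (0 : ℝ) 1] t) (𝓝 (γ t, γ t)) := by
    rw [nhds_prod_eq]
    exact hcont.prodMk tendsto_const_nhds
  have h1 := hpair.eventually hlip
  have hlo := (hasDerivWithinAt_iff_isLittleO.mp (hd t ht)).def (c := η / C) (by positivity)
  filter_upwards [h1, hlo] with s hs1 hs2
  have hsplit : γ s - γ t = (s - t) • γ' t + (γ s - γ t - (s - t) • γ' t) := by abel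
  have hq : Real.sqrt (qf (P.g i (γ t)) (γ s - γ t)) ≤ |s - t| * L + η * |s - t| := by
    rw [hsplit]
    refine (sqrt_qf_add ((P.good i).symm _ (hV t ht)) ((P.good i).pos _ (hV t ht)) _ _).trans ?_
    refine add_le_add ?_ ?_
    · rw [sqrt_qf_smul]
      exact mul_le_mul_of_nonneg_left (hl t ht) (abs_nonneg _)
    · refine ((hcC _).2).trans ?_
      rw [Real.norm_eq_abs] at hs2
      calc C * ‖γ s - γ t - (s - t) • γ' t‖ ≤ C * (η / C * |s - t|) :=
            mul_le_mul_of_nonneg_left hs2 hC.le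
        _ = η * |s - t| := by field_simp
  refine hs1.trans ?_
  have hKe : 0 ≤ K + ε1 := by positivity
  refine (mul_le_mul_of_nonneg_left hq hKe).trans ?_
  have e1 : ε1 * (L + 1) = ε / 2 := by
    rw [hε1def]; field_simp
  have e2 : K * η ≤ ε / 2 := by
    have h3 : (K + 1) * η ≤ ε / 2 := by
      calc (K + 1) * η ≤ (K + 1) * (ε / (2 * (K + 1))) :=
            mul_le_mul_of_nonneg_left hη2 (by positivity)
        _ = ε / 2 := by field_simp
    nlinarith
  have e3 : ε1 * η ≤ ε1 := by nlinarith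
  have e4 : (K + ε1) * (|s - t| * L + η * |s - t|)
      = (K * L + (ε1 * L + K * η + ε1 * η)) * |s - t| := by ring
  rw [e4]
  refine mul_le_mul_of_nonneg_right ?_ (abs_nonneg _)
  nlinarith

theorem lip_segment {K L : ℝ} (hK : 0 ≤ K) (hL : 0 ≤ L) {f : P.Pt → ℝ} (hf : P.Lip K f)
    {i : P.ι} {a b : E4} (hV : segment ℝ a b ⊆ P.V i)
    (hl : ∀ c ∈ segment ℝ a b, Real.sqrt (qf (P.g i c) (b - a)) ≤ L) :
    |f (P.ψ i a) - f (P.ψ i b)| ≤ K * L := by
  have hmem : ∀ t ∈ Set.Icc (0 : ℝ) 1, a + t • (b - a) ∈ segment ℝ a b := by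
    intro t ht
    rw [segment_eq_image']
    exact ⟨t, ht, rfl⟩
  have h1 := P.lip_path hK hL hf (i := i) (γ := fun t => a + t • (b - a)) (γ' := fun _ => b - a)
    (fun t ht => hV (hmem t ht))
    (fun t _ => by
      have h2 : HasDerivAt (fun t : ℝ => a + t • (b - a)) (b - a) t := by
        simpa using ((hasDerivAt_id t).smul_const (b - a)).const_add a
      exact h2.hasDerivWithinAt)
    (fun t ht => hl _ (hmem t ht))
  simp only [one_smul, zero_smul, add_zero, add_sub_cancel] at h1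
  rw [abs_sub_comm]
  exact h1

theorem lip_uniform {i : P.ι} {a : E4} (ha : a ∈ P.V i) {ε : ℝ} (hε : 0 < ε) :
    ∀ᶠ q in 𝓝 (a, a), ∀ (K : ℝ) (f : P.Pt → ℝ), 0 ≤ K → P.Lip K f →
      |f (P.ψ i q.1) - f (P.ψ i q.2)| ≤ (1 + ε) * K * Real.sqrt (qf (P.g i a) (q.1 - q.2)) := by
  have h1 := qf_cont (P.isOpen_V i) (P.good i) ha hε
  have h2 : ∀ᶠ c in 𝓝 a, c ∈ P.V i := (P.isOpen_V i).mem_nhds ha
  obtain ⟨r, hr, hball⟩ := Metric.eventually_nhds_iff_ball.mp (h1.and h2)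
  have h3 : ∀ᶠ q in 𝓝 (a, a), q.1 ∈ Metric.ball a r ∧ q.2 ∈ Metric.ball a r := by
    rw [nhds_prod_eq]
    exact prod_mem_prod (Metric.ball_mem_nhds a hr) (Metric.ball_mem_nhds a hr)
  filter_upwards [h3] with q hq K f hK hf
  have hseg : segment ℝ q.1 q.2 ⊆ Metric.ball a r :=
    (convex_ball a r).segment_subset hq.1 hq.2
  have h4 := P.lip_segment hK (L := (1 + ε) * Real.sqrt (qf (P.g i a) (q.2 - q.1)))
    (by positivity) hf (i := i) (a := q.1) (b := q.2) (fun c hc => (hball c (hseg hc)).2)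
    (fun c hc => ((hball c (hseg hc)).1 _).1)
  rw [path_qf_sub]
  calc |f (P.ψ i q.1) - f (P.ψ i q.2)| ≤ K * ((1 + ε) * Real.sqrt (qf (P.g i a) (q.2 - q.1))) := h4
    _ = _ := by ring

end Patchwork

end Pool.Agent.W_MP_654ec6
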