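import Pool.Agent.W_MP_654ec6.A.Inverse

/-!
# Task B0: transitions in one direction are enough

`Patchwork.trans` follows from transitions given, for each pair of related points, in at least one
of the two directions (`isoAt_inverse`: if `ψ j (θ x) = ψ i x` near `a` and `θ θ' = id` near `b`,
`θ'` continuous at `b` with `θ' b = a`, then `ψ i (θ' z) = ψ j (θ (θ' z)) = ψ j z` near `b`).
-/

open scoped ContDiff Topology
open Filter

namespace Pool.Agent.W_MP_654ec6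

theorem trans_of_or {ι : Type} {V : ι → Set E4} {g : ι → Met} {Pt : Type} {ψ : ι → E4 → Pt}
    (isOpen_V : ∀ i, IsOpen (V i)) (good : ∀ i, GoodMet (g i) (V i))
    (h : ∀ i j, ∀ a ∈ V i, ∀ b ∈ V j, ψ i a = ψ j b →
      (∃ θ : E4 → E4, θ a = b ∧ IsoAt (g i) (g j) θ a ∧ ∀ᶠ x in 𝓝 a, ψ j (θ x) = ψ i x) ∨
      (∃ θ : E4 → E4, θ b = a ∧ IsoAt (g j) (g i) θ b ∧ ∀ᶠ x in 𝓝 b, ψ i (θ x) = ψ j x)) :
    ∀ i j, ∀ a ∈ V i, ∀ b ∈ V j, ψ i a = ψ j b →
      ∃ θ : E4 → E4, θ a = b ∧ IsoAt (g i) (g j) θ a ∧ ∀ᶠ x in 𝓝 a, ψ j (θ x) = ψ i x := by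
  intro i j a ha b hb hab
  rcases h i j a ha b hb hab with h1 | ⟨θ, hθ, hiso, heq⟩
  · exact h1
  · subst hθ
    obtain ⟨θ', h1, h2, -, h4⟩ :=
      isoAt_inverse (isOpen_V j) (good j) (isOpen_V i) (good i) hb ha hiso
    refine ⟨θ', h1, h2, ?_⟩
    have hc : Tendsto θ' (𝓝 (θ b)) (𝓝 b) := by
      have := h2.1.continuousAt.tendsto
      rwa [h1] at this
    filter_upwards [h4, hc.eventually heq] with z hz1 hz2
    rw [← hz2, hz1]

end Pool.Agent.W_MP_654ec6
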