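import Pool.Agent.W_MP_654ec6.B.Dist

/-!
# Task B5: the parametrisations are local homeomorphisms and infinitesimal isometries

`dist_upper`: `lip_uniform`. `dist_lower`: tent functions `tentM` with
`m = (1 + ε)⁻² g i a`: for `x, y` close to `a`, `f (ψ x) - f (ψ y) = √qf m (y - x)`.
`isOpenMap_psi` : let `U ⊆ V i` be a neighbourhood of `a`; the tent function at `a` with small
support inside `ψ i U` shows that the ball of radius `ρ` around `ψ i a` lies in `ψ i U`
(a point outside has tent value `0`, the tent value at `ψ i a` is `ρ`).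
`exists_chart`: `ψ i` is continuous, injective and open on a small ball.
-/

open scoped ContDiff Topology
open Filter

namespace Pool.Agent.W_MP_654ec6

theorem topo_qf_neg (m : Matrix (Fin 4) (Fin 4) ℝ) (v w : E4) : qf m (v - w) = qf m (w - v) := by
  unfold qf
  refine Finset.sum_congr rfl fun i _ => Finset.sum_congr rfl fun j _ => ?_
  simp only [PiLp.sub_apply]
  ring

theorem topo_qf_zero (m : Matrix (Fin 4) (Fin 4) ℝ) : qf m 0 = 0 := by
  unfold qf
  simp

theorem topo_qf_smul (c : ℝ) (m : Matrix (Fin 4) (Fin 4) ℝ) (v : E4) :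
    qf (c • m) v = c * qf m v := by
  unfold qf
  rw [Finset.mul_sum]
  refine Finset.sum_congr rfl fun i _ => ?_
  rw [Finset.mul_sum]
  refine Finset.sum_congr rfl fun j _ => ?_
  simp only [Matrix.smul_apply, smul_eq_mul]
  ring

theorem topo_sqrt_qf_smul {c : ℝ} (hc : 0 ≤ c) (m : Matrix (Fin 4) (Fin 4) ℝ) (v : E4) :
    Real.sqrt (qf ((c ^ 2) • m) v) = c * Real.sqrt (qf m v) := by
  rw [topo_qf_smul, Real.sqrt_mul (sq_nonneg c), Real.sqrt_sq hc]

namespace Patchwork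

variable (P : Patchwork)

theorem topo_ball {i : P.ι} {a : E4} (ha : a ∈ P.V i) {U : Set E4} (hU : U ∈ 𝓝 a) :
    ∃ r : ℝ, 0 < r ∧ Metric.closedBall a r ⊆ U ∧ Metric.closedBall a r ⊆ P.V i ∧
      Set.InjOn (P.ψ i) (Metric.closedBall a r) := by
  obtain ⟨W, hW, hinj⟩ := P.inj i a ha
  have h1 : U ∩ (P.V i ∩ W) ∈ 𝓝 a :=
    Filter.inter_mem hU (Filter.inter_mem ((P.isOpen_V i).mem_nhds ha) hW)
  obtain ⟨r, hr, hsub⟩ := Metric.nhds_basis_closedBall.mem_iff.mp h1
  exact ⟨r, hr, fun x hx => (hsub hx).1, fun x hx => (hsub hx).2.1,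
    hinj.mono fun x hx => (hsub hx).2.2⟩

theorem topo_sub_tendsto (a : E4) :
    Tendsto (fun q : E4 × E4 => ‖q.2 - q.1‖) (𝓝 (a, a)) (𝓝 0) := by
  have h : Continuous fun q : E4 × E4 => ‖q.2 - q.1‖ := by fun_prop
  have := h.tendsto (a, a)
  simpa using this

theorem dist_upper {i : P.ι} {a : E4} (ha : a ∈ P.V i) {ε : ℝ} (hε : 0 < ε) :
    ∀ᶠ q in 𝓝 (a, a), dist (P.ψ i q.1) (P.ψ i q.2) ≤
      (1 + ε) * Real.sqrt (qf (P.g i a) (q.1 - q.2)) := by
  filter_upwards [P.lip_uniform ha hε] with q hq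
  rw [P.dist_def]
  apply P.dst_le
  intro f hf
  have := hq 1 f zero_le_one hf
  rw [mul_one] at this
  exact (le_abs_self _).trans this

theorem dist_lower {i : P.ι} {a : E4} (ha : a ∈ P.V i) {ε : ℝ} (hε : 0 < ε) :
    ∀ᶠ q in 𝓝 (a, a), Real.sqrt (qf (P.g i a) (q.1 - q.2)) ≤
      (1 + ε) * dist (P.ψ i q.1) (P.ψ i q.2) := by
  have h1ε : 0 < 1 + ε := by linarith
  obtain ⟨c, C, hc, hC, hcC⟩ := qf_norm (P.good i) ha
  have hU := qf_cont (P.isOpen_V i) (P.good i) ha hε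
  obtain ⟨r, hr, hrU, hrV, hrinj⟩ := P.topo_ball ha hU
  set m : Matrix (Fin 4) (Fin 4) ℝ := ((1 + ε)⁻¹ ^ 2) • P.g i a with hmdef
  have hinv : 0 < (1 + ε)⁻¹ := inv_pos.mpr h1ε
  have hm : ∀ v, Real.sqrt (qf m v) = (1 + ε)⁻¹ * Real.sqrt (qf (P.g i a) v) := fun v =>
    topo_sqrt_qf_smul hinv.le _ v
  have hms : ∀ i j, m i j = m j i := by
    intro k l
    simp only [hmdef, Matrix.smul_apply, smul_eq_mul]
    rw [(P.good i).symm a ha k l]
  have hmp : ∀ v : E4, v ≠ 0 → 0 < qf m v := by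
    intro v hv
    rw [hmdef, topo_qf_smul]
    exact mul_pos (pow_pos hinv 2) ((P.good i).pos a ha v hv)
  have hmle : ∀ x ∈ Metric.closedBall a r, ∀ v : E4,
      Real.sqrt (qf m v) ≤ Real.sqrt (qf (P.g i x) v) := by
    intro x hx v
    rw [hm v]
    have := (hrU hx v).2
    rw [inv_mul_le_iff₀ h1ε]
    exact this
  have hρ : ∀ v : E4, r / 2 ≤ ‖v‖ → (1 + ε)⁻¹ * (c * (r / 2)) ≤ Real.sqrt (qf m v) := by
    intro v hv
    rw [hm v]
    apply mul_le_mul_of_nonneg_left _ hinv.le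
    exact (mul_le_mul_of_nonneg_left hv hc.le).trans (hcC v).1
  have hev1 : ∀ᶠ q in 𝓝 (a, a), q.1 ∈ Metric.closedBall a (r / 4) :=
    (continuous_fst.tendsto (a, a)).eventually (Metric.closedBall_mem_nhds a (by positivity))
  have hev2 : ∀ᶠ q in 𝓝 (a, a), q.2 ∈ Metric.closedBall a (r / 4) :=
    (continuous_snd.tendsto (a, a)).eventually (Metric.closedBall_mem_nhds a (by positivity))
  have hev3 : ∀ᶠ q in 𝓝 (a, a), ‖q.2 - q.1‖ < c * (r / 2) / C :=
    (topo_sub_tendsto a).eventually (gt_mem_nhds (by positivity))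
  filter_upwards [hev1, hev2, hev3] with q hq1 hq2 hq3
  obtain ⟨f, hf, hfb, -⟩ := P.tentM hr hrV hrinj hms hmp hmle hρ hq1
  have hb1 : q.1 ∈ Metric.closedBall a r :=
    Metric.closedBall_subset_closedBall (by linarith) hq1
  have hb2 : q.2 ∈ Metric.closedBall a r :=
    Metric.closedBall_subset_closedBall (by linarith) hq2
  have hρ0 : 0 < (1 + ε)⁻¹ * (c * (r / 2)) := by positivity
  have e1 := hfb q.1 hb1
  have e2 := hfb q.2 hb2
  rw [sub_self, topo_qf_zero, Real.sqrt_zero, sub_zero, max_eq_right hρ0.le] at e1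
  have hlt : Real.sqrt (qf m (q.2 - q.1)) ≤ (1 + ε)⁻¹ * (c * (r / 2)) := by
    rw [hm]
    apply mul_le_mul_of_nonneg_left _ hinv.le
    refine ((hcC _).2).trans ?_
    have := (lt_div_iff₀ hC).mp hq3
    linarith
  rw [max_eq_right (by linarith)] at e2
  have h3 := P.le_dst hf (P.ψ i q.1) (P.ψ i q.2)
  rw [e1, e2, ← P.dist_def] at h3
  have h4 : Real.sqrt (qf m (q.2 - q.1)) ≤ dist (P.ψ i q.1) (P.ψ i q.2) := by
    refine le_trans ?_ h3
    refine le_trans ?_ (le_abs_self _)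
    linarith
  rw [hm, inv_mul_le_iff₀ h1ε] at h4
  rw [topo_qf_neg]
  exact h4

theorem topo_continuousAt {i : P.ι} {a : E4} (ha : a ∈ P.V i) : ContinuousAt (P.ψ i) a := by
  obtain ⟨c, C, hc, hC, hcC⟩ := qf_norm (P.good i) ha
  have h1 := P.dist_upper ha one_pos
  have h2 : Tendsto (fun x : E4 => (x, a)) (𝓝 a) (𝓝 (a, a)) := by
    have h : Continuous fun x : E4 => (x, a) := by fun_prop
    exact h.tendsto a
  have h3 := h2.eventually h1
  rw [ContinuousAt, tendsto_iff_dist_tendsto_zero]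
  have h4 : Tendsto (fun x : E4 => (1 + 1) * (C * ‖x - a‖)) (𝓝 a) (𝓝 0) := by
    have h : Continuous fun x : E4 => (1 + 1) * (C * ‖x - a‖) := by fun_prop
    have := h.tendsto a
    simpa using this
  refine squeeze_zero' (Eventually.of_forall fun _ => dist_nonneg) ?_ h4
  filter_upwards [h3] with x hx
  refine hx.trans ?_
  exact mul_le_mul_of_nonneg_left (hcC _).2 (by norm_num)

theorem continuousOn_psi (i : P.ι) : ContinuousOn (P.ψ i) (P.V i) := fun _ hx =>
  (P.topo_continuousAt hx).continuousWithinAt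

theorem image_mem_nhds {i : P.ι} {a : E4} (ha : a ∈ P.V i) {U : Set E4} (hU : U ∈ 𝓝 a) :
    P.ψ i '' U ∈ 𝓝 (P.ψ i a) := by
  obtain ⟨c, C, hc, hC, hcC⟩ := qf_norm (P.good i) ha
  have hU' := qf_cont (P.isOpen_V i) (P.good i) ha one_pos
  obtain ⟨r, hr, hrU, hrV, hrinj⟩ := P.topo_ball ha (Filter.inter_mem hU hU')
  have hm : ∀ x ∈ Metric.closedBall a r, ∀ v : E4,
      (c / 2) * ‖v‖ ≤ Real.sqrt (qf (P.g i x) v) := by
    intro x hx v
    have h1 := ((hrU hx).2 v).2
    have h2 := (hcC v).1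
    linarith
  obtain ⟨f, hf, hfb, hf0⟩ := P.tent hr (half_pos hc) hrV hrinj hm
    (Metric.mem_closedBall_self (by positivity : (0 : ℝ) ≤ r / 4))
  have hρ0 : 0 < c / 2 * (r / 2) := by positivity
  have e1 := hfb a (Metric.mem_closedBall_self hr.le)
  rw [sub_self, norm_zero, mul_zero, sub_zero, max_eq_right hρ0.le] at e1
  refine Filter.mem_of_superset (Metric.ball_mem_nhds (P.ψ i a) hρ0) ?_
  intro p hp
  have h1 : p ∈ P.ψ i '' Metric.closedBall a r := by
    by_contra hn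
    have e2 := hf0 p hn
    have h3 := P.le_dst hf (P.ψ i a) p
    rw [e1, e2, ← P.dist_def, sub_zero, abs_of_pos hρ0, dist_comm] at h3
    rw [Metric.mem_ball] at hp
    linarith
  obtain ⟨x, hx, rfl⟩ := h1
  exact ⟨x, (hrU hx).1, rfl⟩

theorem map_nhds {i : P.ι} {a : E4} (ha : a ∈ P.V i) :
    Filter.map (P.ψ i) (𝓝 a) = 𝓝 (P.ψ i a) := by
  apply le_antisymm
  · exact P.topo_continuousAt ha
  · intro s hs
    refine Filter.mem_of_superset (P.image_mem_nhds ha (Filter.mem_map.mp hs)) ?_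
    exact Set.image_preimage_subset _ _

theorem exists_chart {i : P.ι} {a : E4} (ha : a ∈ P.V i) :
    ∃ (r : ℝ) (e : OpenPartialHomeomorph P.Pt E4), 0 < r ∧ Metric.ball a r ⊆ P.V i ∧
      e.target = Metric.ball a r ∧ Set.EqOn e.symm (P.ψ i) (Metric.ball a r) ∧
      P.ψ i a ∈ e.source ∧ e (P.ψ i a) = a := by
  obtain ⟨r, hr, -, hrV, hrinj⟩ := P.topo_ball ha Filter.univ_mem
  have hsub : Metric.ball a r ⊆ Metric.closedBall a r := Metric.ball_subset_closedBall
  have hinj : Set.InjOn (P.ψ i) (Metric.ball a r) := hrinj.mono hsub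
  have hopen : IsOpenMap ((Metric.ball a r).domRestrict (P.ψ i)) := by
    rw [isOpenMap_iff_nhds_le]
    intro x
    have hx : x.1 ∈ P.V i := hrV (hsub x.2)
    have h1 : Filter.map ((Metric.ball a r).domRestrict (P.ψ i)) (𝓝 x) =
        Filter.map (P.ψ i) (𝓝 x.1) := by
      have : (Metric.ball a r).domRestrict (P.ψ i) = P.ψ i ∘ Subtype.val := rfl
      rw [this, ← Filter.map_map, map_nhds_subtype_val,
        Metric.isOpen_ball.nhdsWithin_eq x.2]
    rw [h1, P.map_nhds hx]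
    exact le_refl _
  let e₀ : OpenPartialHomeomorph E4 P.Pt :=
    OpenPartialHomeomorph.ofContinuousOpenRestrict
      (Set.InjOn.toPartialEquiv (P.ψ i) (Metric.ball a r) hinj)
      ((P.continuousOn_psi i).mono (hsub.trans hrV)) hopen Metric.isOpen_ball
  have ha0 : a ∈ e₀.source := Metric.mem_ball_self hr
  refine ⟨r, e₀.symm, hr, hsub.trans hrV, rfl, fun x _ => rfl, ?_, ?_⟩
  · exact e₀.map_source ha0
  · exact e₀.left_inv ha0

end Patchwork

end Pool.Agent.W_MP_654ec6
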