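import Pool.Agent.W_MP_654ec6.B.LipIff

/-!
# Task B7: a lower bound for the volume of balls

Let `ψ i` be injective on `closedBall a r ⊆ V i`, with
`c ‖v‖ ≤ √(qf (g i x) v) ≤ C ‖v‖` for `x ∈ closedBall a r`. By `tent` and `le_dst`,
`c ‖x - y‖ ≤ dist (ψ x) (ψ y)` for `x, y ∈ ball a (r/4)`, and `dist (ψ a) (ψ x) ≤ C ‖x - a‖`
(`dist_segment`). So with `s = min (r/4) (1/(2 C))`, `ψ i (ball a s) ⊆ ball (ψ a) 1`, and `ψ i`
restricted to `ball a s` has a `c⁻¹`-Lipschitz inverse, so
`μH[4] (ball a s) ≤ c⁻⁴ μH[4] (ψ (ball a s))` (`LipschitzOnWith.hausdorffMeasure_image_le`).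
The number `μH[4] (ball a s)` is positive and does not depend on `a` (in Euclidean space `μH[4]` is a
positive multiple of Lebesgue measure: it is a Haar measure, or compare with the sup norm,
`hausdorffMeasure_pi_real`).
-/

open scoped ContDiff Topology
open Filter

namespace Pool.Agent.W_MP_654ec6

open MeasureTheory in
theorem Volume_haar :
    (MeasureTheory.Measure.hausdorffMeasure 4 : MeasureTheory.Measure E4).IsAddHaarMeasure := by
  have h := MeasureTheory.isAddHaarMeasure_hausdorffMeasure (E := E4)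
  have h4 : ((Module.finrank ℝ E4 : ℕ) : ℝ) = 4 := by
    have : Module.finrank ℝ E4 = 4 := by
      simp
    rw [this]; norm_num
  rw [h4] at h
  exact h

theorem Volume_lower_dist (P : Patchwork) {i : P.ι} {a : E4} {c r : ℝ} (hc : 0 < c) (hr : 0 < r)
    (hV : Metric.closedBall a r ⊆ P.V i)
    (hinj : Set.InjOn (P.ψ i) (Metric.closedBall a r))
    (hm : ∀ x ∈ Metric.closedBall a r, ∀ v : E4, c * ‖v‖ ≤ Real.sqrt (qf (P.g i x) v)) {x y : E4}
    (hx : x ∈ Metric.closedBall a (r / 4)) (hy : y ∈ Metric.closedBall a (r / 4)) :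
    c * dist x y ≤ dist (P.ψ i x) (P.ψ i y) := by
  obtain ⟨f, hf, hf1, -⟩ := P.tent hr hc hV hinj hm hx
  have hsub : Metric.closedBall a (r / 4) ⊆ Metric.closedBall a r :=
    Metric.closedBall_subset_closedBall (by linarith)
  have h1 := hf1 x (hsub hx)
  have h2 := hf1 y (hsub hy)
  have h3 := P.le_dst hf (P.ψ i x) (P.ψ i y)
  rw [P.dist_def]
  have hxy : dist x y ≤ r / 2 := by
    have h5 := dist_triangle_right x y a
    have h6 : dist x a ≤ r / 4 := hx
    have h7 : dist y a ≤ r / 4 := hy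
    linarith
  have hn : ‖y - x‖ = dist x y := by rw [dist_comm, dist_eq_norm]
  rw [hn] at h2
  rw [sub_self, norm_zero, mul_zero, sub_zero, max_eq_right (by positivity)] at h1
  rw [max_eq_right (by nlinarith)] at h2
  rw [h1, h2] at h3
  have h8 := le_abs_self (c * (r / 2) - (c * (r / 2) - c * dist x y))
  linarith

theorem vol4_lower (c C r : ℝ) (hc : 0 < c) (hC : 0 < C) (hr : 0 < r) :
    ∃ v : ℝ, 0 < v ∧ ∀ (P : Patchwork) (i : P.ι) (a : E4), Metric.closedBall a r ⊆ P.V i →
      Set.InjOn (P.ψ i) (Metric.closedBall a r) →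
      (∀ x ∈ Metric.closedBall a r, ∀ w : E4, c * ‖w‖ ≤ Real.sqrt (qf (P.g i x) w) ∧
        Real.sqrt (qf (P.g i x) w) ≤ C * ‖w‖) →
      ENNReal.ofReal v ≤ vol4 P.Pt (Metric.ball (P.ψ i a) 1) := by
  haveI := Volume_haar
  obtain ⟨s, hs⟩ : ∃ s : ℝ, s = min (r / 4) (1 / (2 * C)) := ⟨_, rfl⟩
  have hs0 : 0 < s := by rw [hs]; positivity
  have hs1 : s ≤ r / 4 := by rw [hs]; exact min_le_left _ _
  have hs2 : C * s ≤ 1 / 2 := by
    have : s ≤ 1 / (2 * C) := by rw [hs]; exact min_le_right _ _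
    calc C * s ≤ C * (1 / (2 * C)) := by gcongr
      _ = 1 / 2 := by field_simp
  obtain ⟨m, hm⟩ : ∃ m : ENNReal, m =
    (MeasureTheory.Measure.hausdorffMeasure 4 : MeasureTheory.Measure E4) (Metric.ball (0 : E4) s) :=
    ⟨_, rfl⟩
  have hm0 : m ≠ 0 := by
    rw [hm]; exact (Metric.measure_ball_pos _ _ hs0).ne'
  have hmt : m ≠ ⊤ := by
    rw [hm]; exact MeasureTheory.measure_ball_lt_top.ne
  refine ⟨c ^ 4 * m.toReal, by have := ENNReal.toReal_pos hm0 hmt; positivity, ?_⟩
  intro P i a hV hinj hq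
  have hlow : ∀ x ∈ Metric.ball a s, ∀ y ∈ Metric.ball a s,
      c * dist x y ≤ dist (P.ψ i x) (P.ψ i y) := by
    intro x hx y hy
    refine Volume_lower_dist P hc hr hV hinj (fun x hx v => (hq x hx v).1) ?_ ?_
    · exact Metric.mem_closedBall.2 ((Metric.mem_ball.1 hx).le.trans hs1)
    · exact Metric.mem_closedBall.2 ((Metric.mem_ball.1 hy).le.trans hs1)
  have hsub : Metric.ball a s ⊆ Metric.closedBall a r := by
    intro x hx
    exact Metric.mem_closedBall.2 ((Metric.mem_ball.1 hx).le.trans (by linarith))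
  have himg : P.ψ i '' Metric.ball a s ⊆ Metric.ball (P.ψ i a) 1 := by
    rintro _ ⟨x, hx, rfl⟩
    have hseg : segment ℝ a x ⊆ Metric.closedBall a r := by
      refine (convex_closedBall a r).segment_subset ?_ (hsub hx)
      exact Metric.mem_closedBall_self hr.le
    have h1 : dist (P.ψ i a) (P.ψ i x) ≤ C * ‖x - a‖ := by
      refine P.dist_segment (by positivity) (hseg.trans hV) ?_
      intro z hz
      exact (hq z (hseg hz) _).2
    have h2 : ‖x - a‖ < s := by rw [← dist_eq_norm]; exact hx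
    rw [Metric.mem_ball, dist_comm]
    have h3 : C * ‖x - a‖ ≤ C * s := by gcongr
    linarith
  unfold vol4
  letI : MeasurableSpace P.Pt := borel P.Pt
  haveI : BorelSpace P.Pt := ⟨rfl⟩
  have hlip : LipschitzOnWith (Real.toNNReal c⁻¹) (Function.invFunOn (P.ψ i) (Metric.ball a s))
      (P.ψ i '' Metric.ball a s) := by
    refine LipschitzOnWith.of_dist_le_mul ?_
    rintro _ ⟨x, hx, rfl⟩ _ ⟨y, hy, rfl⟩
    have hinj' : Set.InjOn (P.ψ i) (Metric.ball a s) := hinj.mono hsub
    rw [hinj'.leftInvOn_invFunOn hx, hinj'.leftInvOn_invFunOn hy]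
    rw [Real.coe_toNNReal _ (by positivity)]
    have := hlow x hx y hy
    rw [inv_mul_eq_div, le_div_iff₀ hc]
    linarith
  have himg2 : Function.invFunOn (P.ψ i) (Metric.ball a s) '' (P.ψ i '' Metric.ball a s) =
      Metric.ball a s := by
    have hinj' : Set.InjOn (P.ψ i) (Metric.ball a s) := hinj.mono hsub
    exact hinj'.leftInvOn_invFunOn.image_image
  have hH := hlip.hausdorffMeasure_image_le (d := 4) (by norm_num)
  rw [himg2] at hH
  have hball : (MeasureTheory.Measure.hausdorffMeasure 4 : MeasureTheory.Measure E4)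
      (Metric.ball a s) = m := by
    rw [hm]; exact MeasureTheory.Measure.addHaar_ball_center _ a s
  rw [hball] at hH
  have hfin : ENNReal.ofReal (c ^ 4 * m.toReal) = (ENNReal.ofReal c) ^ 4 * m := by
    rw [ENNReal.ofReal_mul (by positivity), ENNReal.ofReal_toReal hmt, ENNReal.ofReal_pow hc.le]
  rw [hfin]
  calc (ENNReal.ofReal c) ^ 4 * m ≤ (ENNReal.ofReal c) ^ 4 *
        (((Real.toNNReal c⁻¹ : NNReal) : ENNReal) ^ (4 : ℝ) *
          MeasureTheory.Measure.hausdorffMeasure 4 (P.ψ i '' Metric.ball a s)) := by gcongr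
    _ = MeasureTheory.Measure.hausdorffMeasure 4 (P.ψ i '' Metric.ball a s) := by
        rw [← mul_assoc]
        have h5 : (((Real.toNNReal c⁻¹ : NNReal) : ENNReal) ^ (4 : ℝ)) =
            (ENNReal.ofReal c⁻¹) ^ 4 := by
          rw [show ((4 : ℝ)) = ((4 : ℕ) : ℝ) by norm_num, ENNReal.rpow_natCast]
          rfl
        rw [h5, ← mul_pow, ← ENNReal.ofReal_mul hc.le, mul_inv_cancel₀ hc.ne']
        simp
    _ ≤ MeasureTheory.Measure.hausdorffMeasure 4 (Metric.ball (P.ψ i a) 1) :=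
        MeasureTheory.measure_mono himg

end Pool.Agent.W_MP_654ec6
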